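import Mathlib

/-!
One-dimensional standard Gaussian: integration by parts for polynomials,
Hermite polynomials, Taylor expansion of shifted expectations.
-/

open MeasureTheory ProbabilityTheory Polynomial

namespace Pool.Agent.H92.MF

/-- the standard Gaussian law on the real line -/
noncomputable abbrev g1 : Measure ℝ := gaussianReal 0 1

theorem integrable_pow_g1 (n : ℕ) : Integrable (fun x : ℝ => x ^ n) g1 := by
  have h := (memLp_id_gaussianReal (μ := 0) (v := 1) (n : NNReal)).integrable_norm_pow'
  have h2 : Integrable (fun x : ℝ => ‖x ^ n‖) g1 := by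
    refine h.congr (Filter.Eventually.of_forall fun x => ?_)
    simp
  exact (integrable_norm_iff (by fun_prop)).1 h2

theorem integrable_poly_g1 (p : ℝ[X]) : Integrable (fun x : ℝ => p.eval x) g1 := by
  have : (fun x : ℝ => p.eval x) = fun x => ∑ i ∈ Finset.range (p.natDegree + 1), p.coeff i * x ^ i := by
    funext x
    exact Polynomial.eval_eq_sum_range x
  rw [this]
  exact integrable_finsetSum _ fun i _ => (integrable_pow_g1 i).const_mul _

/-- expectation of a polynomial under the standard Gaussian -/
noncomputable def E1 (p : ℝ[X]) : ℝ := ∫ x, p.eval x ∂g1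

theorem E1_add (p q : ℝ[X]) : E1 (p + q) = E1 p + E1 q := by
  simp only [E1, Polynomial.eval_add]
  exact integral_add (integrable_poly_g1 p) (integrable_poly_g1 q)

theorem E1_sub (p q : ℝ[X]) : E1 (p - q) = E1 p - E1 q := by
  simp only [E1, Polynomial.eval_sub]
  exact integral_sub (integrable_poly_g1 p) (integrable_poly_g1 q)

theorem E1_C_mul (c : ℝ) (p : ℝ[X]) : E1 (C c * p) = c * E1 p := by
  simp only [E1, Polynomial.eval_mul, Polynomial.eval_C]
  exact integral_const_mul _ _

theorem E1_one : E1 1 = 1 := by
  simp [E1]

theorem integrable_poly_pdf (p : ℝ[X]) :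
    Integrable (fun x : ℝ => gaussianPDFReal 0 1 x * p.eval x) := by
  have h := integrable_poly_g1 p
  rw [g1, gaussianReal_of_var_ne_zero 0 (one_ne_zero)] at h
  rw [integrable_withDensity_iff_integrable_smul' (measurable_gaussianPDF 0 1)
    (Filter.Eventually.of_forall fun x => gaussianPDF_lt_top)] at h
  refine h.congr (Filter.Eventually.of_forall fun x => ?_)
  simp [toReal_gaussianPDF]

theorem E1_eq (p : ℝ[X]) : E1 p = ∫ x, gaussianPDFReal 0 1 x * p.eval x := by
  rw [E1, g1, integral_gaussianReal_eq_integral_smul (one_ne_zero)]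
  simp

theorem hasDerivAt_pdf (x : ℝ) :
    HasDerivAt (gaussianPDFReal 0 1) (-(x * gaussianPDFReal 0 1 x)) x := by
  have h1 : HasDerivAt (fun x : ℝ => -(x - 0) ^ 2 / (2 * ((1 : NNReal) : ℝ))) (-x) x := by
    have := (((hasDerivAt_id x).sub_const 0).pow 2).neg.div_const (2 * ((1 : NNReal) : ℝ))
    refine this.congr_deriv ?_
    simp
    ring
  have h2 := (h1.exp).const_mul ((√(2 * Real.pi * ((1 : NNReal) : ℝ)))⁻¹)
  have h3 : gaussianPDFReal 0 1 = fun x : ℝ =>
      (√(2 * Real.pi * ((1 : NNReal) : ℝ)))⁻¹ * Real.exp (-(x - 0) ^ 2 / (2 * ((1 : NNReal) : ℝ))) := by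
    funext y; rw [gaussianPDFReal_def]
  rw [h3]
  refine h2.congr_deriv ?_
  ring

theorem E1_stein (p : ℝ[X]) : E1 (X * p) = E1 (derivative p) := by
  have h := MeasureTheory.integral_mul_deriv_eq_deriv_mul_of_integrable
    (u := fun x : ℝ => p.eval x) (v := gaussianPDFReal 0 1)
    (u' := fun x => (derivative p).eval x) (v' := fun x => -(x * gaussianPDFReal 0 1 x))
    (fun x _ => p.hasDerivAt x) (fun x _ => hasDerivAt_pdf x)
    (by
      have := (integrable_poly_pdf (-(X * p)))
      refine this.congr (Filter.Eventually.of_forall fun x => ?_)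
      simp only [Polynomial.eval_neg, Polynomial.eval_mul, Polynomial.eval_X, Pi.mul_apply]
      ring)
    (by
      refine (integrable_poly_pdf (derivative p)).congr (Filter.Eventually.of_forall fun x => ?_)
      simp only [Pi.mul_apply]
      ring)
    (by
      refine (integrable_poly_pdf p).congr (Filter.Eventually.of_forall fun x => ?_)
      simp only [Pi.mul_apply]
      ring)
  rw [E1_eq, E1_eq]
  have h1 : ∫ x, gaussianPDFReal 0 1 x * (X * p).eval x
      = -∫ x, p.eval x * -(x * gaussianPDFReal 0 1 x) := by
    rw [← integral_neg]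
    congr 1; funext x
    simp only [Polynomial.eval_mul, Polynomial.eval_X]
    ring
  rw [h1, h, neg_neg]
  congr 1; funext x
  ring

/-- probabilists' Hermite polynomials over the reals -/
noncomputable def He : ℕ → ℝ[X]
  | 0 => 1
  | n + 1 => X * He n - derivative (He n)

theorem E1_He_succ_mul (n : ℕ) (p : ℝ[X]) :
    E1 (He (n + 1) * p) = E1 (He n * derivative p) := by
  have h1 : He (n + 1) * p = X * (He n * p) - derivative (He n) * p := by
    rw [He]; ring
  rw [h1, E1_sub, E1_stein, Polynomial.derivative_mul, E1_add]
  ring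

theorem E1_He_mul (n : ℕ) (p : ℝ[X]) : E1 (He n * p) = E1 (derivative^[n] p) := by
  induction n generalizing p with
  | zero => simp [He]
  | succ n ih => rw [E1_He_succ_mul, ih, Function.iterate_succ_apply]

theorem He_natDegree_le (n : ℕ) : (He n).natDegree ≤ n := by
  induction n with
  | zero => simp [He]
  | succ n ih =>
    rw [He]
    refine (Polynomial.natDegree_sub_le _ _).trans (max_le ?_ ?_)
    · refine (Polynomial.natDegree_mul_le).trans ?_
      rw [Polynomial.natDegree_X]; omega
    · exact (Polynomial.natDegree_derivative_le _).trans (by omega)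

theorem iterate_derivative_He (n : ℕ) : derivative^[n] (He n) = C (n.factorial : ℝ) := by
  induction n with
  | zero => simp [He]
  | succ n ih =>
    rw [He, Polynomial.iterate_derivative_sub]
    have h0 : derivative^[n + 1] (derivative (He n)) = 0 := by
      apply Polynomial.iterate_derivative_eq_zero
      by_cases h : n = 0
      · subst h; simp [He]
      · have h1 := Polynomial.natDegree_derivative_le (He n)
        have h2 := He_natDegree_le n
        omega
    have h1 : derivative^[n + 1] (He n) = 0 := by
      apply Polynomial.iterate_derivative_eq_zero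
      have h2 := He_natDegree_le n
      omega
    have h2 : derivative^[n + 1] (X * He n)
        = X * derivative^[n + 1] (He n) + ((n + 1 : ℕ) : ℝ[X]) * derivative^[n] (He n) := by
      rw [mul_comm X, Polynomial.iterate_derivative_mul_X]
      simp [mul_comm]
    rw [h2, h0, h1, ih, Nat.factorial_succ]
    simp

theorem E1_C (c : ℝ) : E1 (C c) = c := by
  have := E1_C_mul c 1
  rw [mul_one, E1_one, mul_one] at this
  exact this

theorem E1_He_He (m n : ℕ) : E1 (He m * He n) = if m = n then (n.factorial : ℝ) else 0 := by
  split_ifs with h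
  · subst h
    rw [E1_He_mul, iterate_derivative_He, E1_C]
  · rcases lt_or_gt_of_ne h with h | h
    · rw [mul_comm, E1_He_mul, Polynomial.iterate_derivative_eq_zero]
      · simp [E1]
      · exact lt_of_le_of_lt (He_natDegree_le m) h
    · rw [E1_He_mul, Polynomial.iterate_derivative_eq_zero]
      · simp [E1]
      · exact lt_of_le_of_lt (He_natDegree_le n) h

/-- Taylor expansion of a shifted expectation. -/
theorem E1_shift (p : ℝ[X]) (D : ℕ) (hp : p.natDegree ≤ D) (s : ℝ) :
    ∫ x, p.eval (s + x) ∂g1
      = ∑ j ∈ Finset.range (D + 1), E1 (He j * p) * s ^ j / (j.factorial : ℝ) := by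
  have h1 : ∀ x : ℝ, p.eval (s + x)
      = ∑ j ∈ Finset.range (D + 1), (s ^ j / (j.factorial : ℝ)) * (derivative^[j] p).eval x := by
    intro x
    have h2 : p.eval (s + x) = (Polynomial.taylor x p).eval s := by
      rw [Polynomial.taylor_eval]
    rw [h2, Polynomial.eval_eq_sum_range' (n := D + 1)]
    · refine Finset.sum_congr rfl fun j _ => ?_
      have h3 : ((j.factorial : ℝ)) * (Polynomial.taylor x p).coeff j
          = (derivative^[j] p).eval x := by
        rw [Polynomial.taylor_coeff]
        have h4 := congrFun (Polynomial.factorial_smul_hasseDeriv (R := ℝ) j) p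
        rw [← h4]
        simp
      rw [← h3]
      have : (j.factorial : ℝ) ≠ 0 := by positivity
      field_simp
    · rw [Polynomial.natDegree_taylor]; omega
  simp_rw [h1]
  rw [integral_finsetSum]
  · refine Finset.sum_congr rfl fun j _ => ?_
    rw [integral_const_mul, E1_He_mul, E1]
    ring
  · intro j _
    exact (integrable_poly_g1 _).const_mul _

end Pool.Agent.H92.MF
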