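import Mathlib
import Pool.Agent.H92.MF.Gauss1

/-!
Standard Gaussian vectors: shifted expectations of polynomials of bounded degree
and the low-degree second moment bound.
-/

open MeasureTheory ProbabilityTheory

namespace Pool.Agent.H92.MF

variable {ι : Type*} [Fintype ι] [DecidableEq ι]

/-- the law of a standard Gaussian vector -/
noncomputable abbrev gN (ι : Type*) [Fintype ι] : Measure (ι → ℝ) :=
  Measure.pi fun _ => gaussianReal 0 1

omit [DecidableEq ι] in
theorem integrable_monomial (β : ι →₀ ℕ) (c : ℝ) :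
    Integrable (fun w : ι → ℝ => MvPolynomial.eval w (MvPolynomial.monomial β c)) (gN ι) := by
  have h : (fun w : ι → ℝ => MvPolynomial.eval w (MvPolynomial.monomial β c))
      = fun w => c * ∏ i, (w i) ^ (β i) := by
    funext w
    rw [MvPolynomial.eval_monomial, Finsupp.prod_fintype]
    intro i; simp
  rw [h]
  exact (Integrable.fintype_prod (fun i => integrable_pow_g1 (β i))).const_mul c

omit [DecidableEq ι] in
theorem integrable_mv (f : MvPolynomial ι ℝ) :
    Integrable (fun w : ι → ℝ => MvPolynomial.eval w f) (gN ι) := by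
  induction f using MvPolynomial.induction_on' with
  | monomial β c => exact integrable_monomial β c
  | add p q hp hq =>
    refine (hp.add hq).congr (Filter.Eventually.of_forall fun w => ?_)
    simp

/-- Gaussian expectation of a polynomial -/
noncomputable def EG (f : MvPolynomial ι ℝ) : ℝ := ∫ w, MvPolynomial.eval w f ∂(gN ι)

omit [DecidableEq ι] in
theorem EG_add (f g : MvPolynomial ι ℝ) : EG (f + g) = EG f + EG g := by
  simp only [EG, map_add]
  exact integral_add (integrable_mv f) (integrable_mv g)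

omit [DecidableEq ι] in
theorem EG_smul (c : ℝ) (f : MvPolynomial ι ℝ) : EG (c • f) = c * EG f := by
  simp only [EG, MvPolynomial.smul_eval]
  exact integral_const_mul _ _

/-- `EG` as a linear map -/
noncomputable def EGl : MvPolynomial ι ℝ →ₗ[ℝ] ℝ where
  toFun := EG
  map_add' := EG_add
  map_smul' := EG_smul

/-- multivariate Hermite polynomial -/
noncomputable def HH (α : ι → ℕ) : MvPolynomial ι ℝ :=
  ∏ i, Polynomial.aeval (MvPolynomial.X i : MvPolynomial ι ℝ) (He (α i))

omit [DecidableEq ι] in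
theorem eval_HH (α : ι → ℕ) (w : ι → ℝ) :
    MvPolynomial.eval w (HH α) = ∏ i, (He (α i)).eval (w i) := by
  rw [HH, map_prod]
  refine Finset.prod_congr rfl fun i _ => ?_
  have := Polynomial.hom_eval₂ (He (α i)) (algebraMap ℝ (MvPolynomial ι ℝ))
    (MvPolynomial.eval w) (MvPolynomial.X i)
  rw [Polynomial.aeval_def, this, MvPolynomial.eval_X]
  have h2 : (MvPolynomial.eval w).comp (algebraMap ℝ (MvPolynomial ι ℝ)) = RingHom.id ℝ := by
    ext; simp
  rw [h2, Polynomial.eval₂_id]

omit [DecidableEq ι] in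
theorem EG_prod (p : ι → Polynomial ℝ) (f : MvPolynomial ι ℝ)
    (hf : ∀ w, MvPolynomial.eval w f = ∏ i, (p i).eval (w i)) :
    EG f = ∏ i, E1 (p i) := by
  rw [EG]
  simp_rw [hf]
  rw [integral_fintype_prod_eq_prod (fun i (x : ℝ) => (p i).eval x)]
  rfl

omit [DecidableEq ι] in
theorem EG_HH_HH (α β : ι → ℕ) :
    EG (HH α * HH β) = if α = β then ∏ i, ((β i).factorial : ℝ) else 0 := by
  rw [EG_prod (fun i => He (α i) * He (β i)) _ (by
    intro w; rw [map_mul, eval_HH, eval_HH, ← Finset.prod_mul_distrib]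
    refine Finset.prod_congr rfl fun i _ => ?_
    rw [Polynomial.eval_mul])]
  simp_rw [E1_He_He]
  split_ifs with h
  · subst h; simp
  · obtain ⟨i, hi⟩ := Function.ne_iff.1 h
    exact Finset.prod_eq_zero (Finset.mem_univ i) (by simp [hi])

/-- multi-indices of total degree at most `D` -/
def AD (ι : Type*) [Fintype ι] [DecidableEq ι] (D : ℕ) : Finset (ι → ℕ) :=
  (Finset.range (D + 1)).biUnion fun k => Finset.piAntidiag Finset.univ k

theorem mem_AD (D : ℕ) (α : ι → ℕ) : α ∈ AD ι D ↔ ∑ i, α i ≤ D := by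
  simp [AD, Finset.mem_piAntidiag]

theorem sum_AD (D : ℕ) (t : ι → ℝ) :
    ∑ α ∈ AD ι D, ∏ i, (t i) ^ (α i) / ((α i).factorial : ℝ)
      = ∑ k ∈ Finset.range (D + 1), (∑ i, t i) ^ k / (k.factorial : ℝ) := by
  rw [AD, Finset.sum_biUnion]
  · refine Finset.sum_congr rfl fun k _ => ?_
    rw [Finset.sum_pow_eq_sum_piAntidiag, Finset.sum_div]
    refine Finset.sum_congr rfl fun α hα => ?_
    have h1 := (Finset.mem_piAntidiag.1 hα).1
    have h2 := Nat.multinomial_spec Finset.univ α
    rw [h1] at h2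
    have h3 : (k.factorial : ℝ) = (∏ i, ((α i).factorial : ℝ)) * (Nat.multinomial Finset.univ α : ℝ) := by
      rw [← h2]; push_cast; ring
    have h4 : (∏ i, ((α i).factorial : ℝ)) ≠ 0 :=
      Finset.prod_ne_zero_iff.2 fun i _ => by positivity
    have h5 : (k.factorial : ℝ) ≠ 0 := by positivity
    rw [Finset.prod_div_distrib, div_eq_div_iff h4 h5, h3]
    ring
  · intro a _ b _ hab
    rw [Function.onFun, Finset.disjoint_left]
    intro α h1 h2
    exact hab ((Finset.mem_piAntidiag.1 h1).1.symm.trans (Finset.mem_piAntidiag.1 h2).1)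

theorem shift_monomial (β : ι →₀ ℕ) (D : ℕ) (hβ : ∑ i, β i ≤ D) (s : ι → ℝ) :
    ∫ w, MvPolynomial.eval (s + w) (MvPolynomial.monomial β (1 : ℝ)) ∂(gN ι)
      = ∑ α ∈ AD ι D, EG (MvPolynomial.monomial β (1 : ℝ) * HH α)
          * ∏ i, (s i) ^ (α i) / ((α i).factorial : ℝ) := by
  have h1 : ∀ w : ι → ℝ, MvPolynomial.eval (s + w) (MvPolynomial.monomial β (1 : ℝ))
      = ∏ i, (Polynomial.X ^ (β i) : Polynomial ℝ).eval (s i + w i) := by
    intro w
    rw [MvPolynomial.eval_monomial, Finsupp.prod_fintype, one_mul]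
    · simp
    · intro i; simp
  simp_rw [h1]
  rw [integral_fintype_prod_eq_prod (fun i (x : ℝ) => (Polynomial.X ^ (β i) : Polynomial ℝ).eval (s i + x))]
  have h2 : ∀ i, ∫ x, (Polynomial.X ^ (β i) : Polynomial ℝ).eval (s i + x) ∂g1
      = ∑ j ∈ Finset.range (D + 1), E1 (He j * Polynomial.X ^ (β i)) * (s i) ^ j / (j.factorial : ℝ) := by
    intro i
    apply E1_shift
    rw [Polynomial.natDegree_X_pow]
    exact (Finset.single_le_sum (f := fun i => β i) (fun i _ => Nat.zero_le _) (Finset.mem_univ i)).trans hβ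
  have h3 : ∀ i, ∫ x, (Polynomial.X ^ (β i) : Polynomial ℝ).eval (s i + x) ∂(gaussianReal 0 1)
      = ∑ j ∈ Finset.range (D + 1), E1 (He j * Polynomial.X ^ (β i)) * (s i) ^ j / (j.factorial : ℝ) := h2
  simp_rw [h3]
  rw [Finset.prod_univ_sum]
  have h4 : ∀ α : ι → ℕ, EG (MvPolynomial.monomial β (1 : ℝ) * HH α)
      = ∏ i, E1 (He (α i) * Polynomial.X ^ (β i)) := by
    intro α
    apply EG_prod
    intro w
    rw [map_mul, eval_HH, MvPolynomial.eval_monomial, Finsupp.prod_fintype, one_mul,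
      ← Finset.prod_mul_distrib]
    · refine Finset.prod_congr rfl fun i _ => ?_
      simp [mul_comm]
    · intro i; simp
  symm
  have hsub : AD ι D ⊆ Fintype.piFinset fun _ : ι => Finset.range (D + 1) := by
    intro α hα
    rw [mem_AD] at hα
    rw [Fintype.mem_piFinset]
    intro i
    rw [Finset.mem_range]
    have := Finset.single_le_sum (f := fun i => α i) (fun i _ => Nat.zero_le _) (Finset.mem_univ i)
    exact Nat.lt_succ_of_le (this.trans hα)
  rw [← Finset.sum_subset hsub]
  · refine Finset.sum_congr rfl fun α _ => ?_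
    rw [h4, ← Finset.prod_mul_distrib]
    refine Finset.prod_congr rfl fun i _ => ?_
    ring
  · intro α _ hα
    rw [mem_AD, not_le] at hα
    have h5 : ∃ i, β i < α i := by
      by_contra hcon
      push Not at hcon
      have : ∑ i, α i ≤ ∑ i, β i := Finset.sum_le_sum fun i _ => hcon i
      omega
    obtain ⟨i, hi⟩ := h5
    refine Finset.prod_eq_zero (Finset.mem_univ i) ?_
    rw [E1_He_mul, Polynomial.iterate_derivative_eq_zero]
    · simp [E1]
    · rw [Polynomial.natDegree_X_pow]; exact hi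

omit [DecidableEq ι] in
theorem integrable_shift (f : MvPolynomial ι ℝ) (s : ι → ℝ) :
    Integrable (fun w : ι → ℝ => MvPolynomial.eval (s + w) f) (gN ι) := by
  have h : (fun w : ι → ℝ => MvPolynomial.eval (s + w) f)
      = fun w => MvPolynomial.eval w
        (MvPolynomial.bind₁ (fun i => MvPolynomial.C (s i) + MvPolynomial.X i) f) := by
    funext w
    rw [← MvPolynomial.coe_aeval_eq_eval, ← MvPolynomial.coe_aeval_eq_eval]
    simp only [RingHom.coe_coe]
    rw [MvPolynomial.aeval_bind₁]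
    congr 2
    funext i
    simp
  rw [h]
  exact integrable_mv _

theorem shift_formula (f : MvPolynomial ι ℝ) (D : ℕ) (hf : f.totalDegree ≤ D) (s : ι → ℝ) :
    ∫ w, MvPolynomial.eval (s + w) f ∂(gN ι)
      = ∑ α ∈ AD ι D, EG (f * HH α) * ∏ i, (s i) ^ (α i) / ((α i).factorial : ℝ) := by
  have h1 : f = ∑ β ∈ f.support, MvPolynomial.coeff β f • MvPolynomial.monomial β (1 : ℝ) := by
    conv_lhs => rw [MvPolynomial.as_sum f]
    refine Finset.sum_congr rfl fun β _ => ?_
    rw [MvPolynomial.smul_monomial, smul_eq_mul, mul_one]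
  have h2 : ∀ w : ι → ℝ, MvPolynomial.eval (s + w) f
      = ∑ β ∈ f.support, MvPolynomial.coeff β f * MvPolynomial.eval (s + w) (MvPolynomial.monomial β (1 : ℝ)) := by
    intro w
    conv_lhs => rw [h1]
    rw [map_sum]
    refine Finset.sum_congr rfl fun β _ => ?_
    rw [MvPolynomial.smul_eval]
  simp_rw [h2]
  rw [integral_finsetSum]
  swap
  · intro β _
    exact (integrable_shift _ s).const_mul _
  have h3 : ∀ α : ι → ℕ, EG (f * HH α)
      = ∑ β ∈ f.support, MvPolynomial.coeff β f * EG (MvPolynomial.monomial β (1 : ℝ) * HH α) := by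
    intro α
    have h4 : f * HH α = ∑ β ∈ f.support, MvPolynomial.coeff β f •
        (MvPolynomial.monomial β (1 : ℝ) * HH α) := by
      conv_lhs => rw [h1]
      rw [Finset.sum_mul]
      refine Finset.sum_congr rfl fun β _ => ?_
      rw [smul_mul_assoc]
    have h5 := congrArg (EGl (ι := ι)) h4
    rw [map_sum] at h5
    have h6 : EGl (ι := ι) (f * HH α) = EG (f * HH α) := rfl
    rw [← h6, h5]
    refine Finset.sum_congr rfl fun β _ => ?_
    rw [map_smul, smul_eq_mul]
    rfl
  simp_rw [h3, Finset.sum_mul]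
  rw [Finset.sum_comm]
  refine Finset.sum_congr rfl fun β hβ => ?_
  rw [integral_const_mul, shift_monomial β D, Finset.mul_sum]
  · refine Finset.sum_congr rfl fun α _ => ?_
    ring
  · have h7 := MvPolynomial.le_totalDegree hβ
    rw [Finsupp.sum_fintype] at h7
    · exact h7.trans hf
    · intro i; rfl

omit [DecidableEq ι] in
theorem bessel (f : MvPolynomial ι ℝ) (A : Finset (ι → ℕ)) :
    ∑ α ∈ A, EG (f * HH α) ^ 2 / (∏ i, ((α i).factorial : ℝ)) ≤ EG (f * f) := by
  classical
  set c : (ι → ℕ) → ℝ := fun α => EG (f * HH α) / (∏ i, ((α i).factorial : ℝ)) with hc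
  set g : MvPolynomial ι ℝ := ∑ α ∈ A, c α • HH α with hg
  have hfac : ∀ α : ι → ℕ, (∏ i, ((α i).factorial : ℝ)) ≠ 0 := fun α =>
    Finset.prod_ne_zero_iff.2 fun i _ => by positivity
  have h0 : 0 ≤ EG ((f - g) * (f - g)) := by
    rw [EG]
    apply integral_nonneg
    intro w
    simp only [map_mul, Pi.zero_apply]
    exact mul_self_nonneg _
  have h1 : EGl (f * g) = ∑ α ∈ A, EG (f * HH α) ^ 2 / (∏ i, ((α i).factorial : ℝ)) := by
    rw [hg, Finset.mul_sum, map_sum]
    refine Finset.sum_congr rfl fun α _ => ?_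
    rw [mul_smul_comm, map_smul, smul_eq_mul]
    change c α * EG (f * HH α) = _
    simp only [hc]
    ring
  have h2 : EGl (g * g) = ∑ α ∈ A, EG (f * HH α) ^ 2 / (∏ i, ((α i).factorial : ℝ)) := by
    have h3 : ∀ α ∈ A, EGl (HH α * g) = c α * ∏ i, ((α i).factorial : ℝ) := by
      intro α hα
      rw [hg, Finset.mul_sum, map_sum]
      rw [Finset.sum_eq_single α]
      · rw [mul_smul_comm, map_smul, smul_eq_mul]
        change c α * EG (HH α * HH α) = _
        rw [EG_HH_HH, if_pos rfl]
      · intro β _ hβ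
        rw [mul_smul_comm, map_smul, smul_eq_mul]
        change c β * EG (HH α * HH β) = _
        rw [EG_HH_HH, if_neg (Ne.symm hβ), mul_zero]
      · intro h; exact absurd hα h
    conv_lhs => rw [hg, Finset.sum_mul, map_sum]
    refine Finset.sum_congr rfl fun α hα => ?_
    rw [smul_mul_assoc, map_smul, smul_eq_mul]
    rw [← hg, h3 α hα]
    simp only [hc]
    have := hfac α
    field_simp
  have h4 : EGl ((f - g) * (f - g)) = EGl (f * f) - 2 * EGl (f * g) + EGl (g * g) := by
    have : (f - g) * (f - g) = f * f - (f * g + f * g) + g * g := by ring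
    rw [this, map_add, map_sub, map_add]
    ring
  have h5 : EGl ((f - g) * (f - g)) = EG ((f - g) * (f - g)) := rfl
  have h6 : EGl (f * f) = EG (f * f) := rfl
  rw [h5, h6, h1, h2] at h4
  linarith


/-- Low-degree second moment bound for an additive Gaussian model. -/
theorem low_degree_bound {Ω : Type*} [MeasurableSpace Ω] (μ : Measure Ω) [IsProbabilityMeasure μ]
    (s : Ω → ι → ℝ) (hs : ∀ i, Measurable fun ω => s ω i) (B : ℝ) (hB : ∀ ω i, |s ω i| ≤ B)
    (f : MvPolynomial ι ℝ) (D : ℕ) (hf : f.totalDegree ≤ D) :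
    (∫ ω, ∫ w, MvPolynomial.eval (s ω + w) f ∂(gN ι) ∂μ) ^ 2
      ≤ (∫ w, (MvPolynomial.eval w f) ^ 2 ∂(gN ι)) *
        ∫ ω, ∫ ω', ∑ k ∈ Finset.range (D + 1), (∑ i, s ω i * s ω' i) ^ k / (k.factorial : ℝ) ∂μ ∂μ := by
  -- bounded moments
  have hpow : ∀ α : ι → ℕ, Integrable (fun ω => ∏ i, (s ω i) ^ (α i)) μ := by
    intro α
    refine Integrable.of_bound (C := ∏ i, B ^ (α i)) ?_ ?_
    · exact (Finset.measurable_prod _ fun i _ => (hs i).pow_const _).aestronglyMeasurable
    · refine Filter.Eventually.of_forall fun ω => ?_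
      rw [Real.norm_eq_abs, Finset.abs_prod]
      refine Finset.prod_le_prod (fun i _ => abs_nonneg _) fun i _ => ?_
      rw [abs_pow]
      exact pow_le_pow_left₀ (abs_nonneg _) (hB ω i) _
  set m : (ι → ℕ) → ℝ := fun α => ∫ ω, ∏ i, (s ω i) ^ (α i) ∂μ with hm
  set F : (ι → ℕ) → ℝ := fun α => ∏ i, ((α i).factorial : ℝ) with hF
  have hFpos : ∀ α, 0 < F α := fun α => Finset.prod_pos fun i _ => by positivity
  have h1 : ∫ ω, ∫ w, MvPolynomial.eval (s ω + w) f ∂(gN ι) ∂μ
      = ∑ α ∈ AD ι D, EG (f * HH α) * (m α / F α) := by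
    simp_rw [shift_formula f D hf]
    rw [integral_finsetSum]
    · refine Finset.sum_congr rfl fun α _ => ?_
      rw [integral_const_mul]
      congr 1
      simp_rw [Finset.prod_div_distrib]
      rw [integral_div]
    · intro α _
      simp_rw [Finset.prod_div_distrib]
      exact ((hpow α).div_const _).const_mul _
  have h2 : (∑ α ∈ AD ι D, EG (f * HH α) * (m α / F α)) ^ 2
      ≤ (∑ α ∈ AD ι D, EG (f * HH α) ^ 2 / F α) * ∑ α ∈ AD ι D, m α ^ 2 / F α := by
    have h3 := Finset.sum_mul_sq_le_sq_mul_sq (AD ι D)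
      (fun α => EG (f * HH α) / √(F α)) (fun α => m α / √(F α))
    refine le_trans (le_of_eq ?_) (h3.trans (le_of_eq ?_))
    · congr 1
      refine Finset.sum_congr rfl fun α _ => ?_
      have h4 : √(F α) * √(F α) = F α := Real.mul_self_sqrt (hFpos α).le
      have h5 : √(F α) ≠ 0 := (Real.sqrt_pos.2 (hFpos α)).ne'
      rw [div_mul_div_comm, h4]
      ring
    · congr 1 <;>
      · refine Finset.sum_congr rfl fun α _ => ?_
        rw [div_pow, Real.sq_sqrt (hFpos α).le]
  have h6 : ∑ α ∈ AD ι D, m α ^ 2 / F α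
      = ∫ ω, ∫ ω', ∑ k ∈ Finset.range (D + 1), (∑ i, s ω i * s ω' i) ^ k / (k.factorial : ℝ) ∂μ ∂μ := by
    have h7 : ∀ ω ω', ∑ k ∈ Finset.range (D + 1), (∑ i, s ω i * s ω' i) ^ k / (k.factorial : ℝ)
        = ∑ α ∈ AD ι D, (∏ i, (s ω i) ^ (α i)) * (∏ i, (s ω' i) ^ (α i)) / F α := by
      intro ω ω'
      rw [← sum_AD]
      refine Finset.sum_congr rfl fun α _ => ?_
      rw [Finset.prod_div_distrib, ← Finset.prod_mul_distrib]
      congr 1
      refine Finset.prod_congr rfl fun i _ => ?_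
      rw [mul_pow]
    simp_rw [h7]
    have h8 : ∀ ω, ∫ ω', ∑ α ∈ AD ι D, (∏ i, (s ω i) ^ (α i)) * (∏ i, (s ω' i) ^ (α i)) / F α ∂μ
        = ∑ α ∈ AD ι D, (∏ i, (s ω i) ^ (α i)) * m α / F α := by
      intro ω
      rw [integral_finsetSum]
      · refine Finset.sum_congr rfl fun α _ => ?_
        rw [integral_div, integral_const_mul]
      · intro α _
        exact ((hpow α).const_mul _).div_const _
    simp_rw [h8]
    rw [integral_finsetSum]
    · refine Finset.sum_congr rfl fun α _ => ?_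
      rw [integral_div, integral_mul_const, sq]
    · intro α _
      exact ((hpow α).mul_const _).div_const _
  have h9 : ∑ α ∈ AD ι D, EG (f * HH α) ^ 2 / F α ≤ ∫ w, (MvPolynomial.eval w f) ^ 2 ∂(gN ι) := by
    refine (bessel f (AD ι D)).trans (le_of_eq ?_)
    rw [EG]
    congr 1; funext w
    rw [map_mul, sq]
  have h10 : 0 ≤ ∑ α ∈ AD ι D, m α ^ 2 / F α :=
    Finset.sum_nonneg fun α _ => div_nonneg (sq_nonneg _) (hFpos α).le
  rw [h1, ← h6]
  exact h2.trans (mul_le_mul_of_nonneg_right h9 h10)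

end Pool.Agent.H92.MF
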