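import Mathlib

/-!
Moments of sums of independent bounded centred random vectors, up to linear order.
-/

open MeasureTheory ProbabilityTheory

namespace Pool.Agent.H92.MF

theorem exp_le_quadratic {ε x : ℝ} (hε1 : ε ≤ 1) (hx : |x| ≤ ε) :
    Real.exp x ≤ 1 + x + (1 + ε) * x ^ 2 / 2 := by
  have h1 : |x| ≤ 1 := hx.trans hε1
  have h := Real.exp_bound h1 (n := 3) (by norm_num)
  have h2 : ∑ m ∈ Finset.range 3, x ^ m / (m.factorial : ℝ) = 1 + x + x ^ 2 / 2 := by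
    simp [Finset.sum_range_succ, Nat.factorial]
  rw [h2] at h
  have h3 := (abs_le.1 h).2
  have h4 : |x| ^ 3 * (((Nat.succ 3 : ℕ) : ℝ) / ((Nat.factorial 3 : ℕ) * (3 : ℕ))) = |x| * x ^ 2 * (2 / 9) := by
    have : |x| ^ 3 = |x| * x ^ 2 := by
      rw [← sq_abs x]; ring
    rw [this]
    norm_num [Nat.factorial]
  have h3' : Real.exp x - (1 + x + x ^ 2 / 2) ≤ |x| * x ^ 2 * (2 / 9) := by
    refine h3.trans (le_of_eq ?_)
    convert h4 using 3
  have h5 : |x| * x ^ 2 ≤ ε * x ^ 2 := mul_le_mul_of_nonneg_right hx (sq_nonneg x)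
  have h6 : 0 ≤ ε * x ^ 2 := mul_nonneg ((abs_nonneg x).trans hx) (sq_nonneg x)
  nlinarith [h3', h5, h6]

theorem factorial_le_bound (k : ℕ) (hk : 1 ≤ k) :
    (k.factorial : ℝ) ≤ Real.exp 1 * k * ((k : ℝ) / Real.exp 1) ^ k := by
  induction k, hk using Nat.le_induction with
  | base => simp
  | succ k hk ih =>
    have hk0 : (0 : ℝ) < k := by exact_mod_cast hk
    have he : (0 : ℝ) < Real.exp 1 := Real.exp_pos 1
    -- e * k^(k+1) ≤ (k+1)^(k+1)
    have h1 : Real.exp 1 * (k : ℝ) ^ (k + 1) ≤ ((k : ℝ) + 1) ^ (k + 1) := by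
      have h2 : 1 ≤ ((k : ℝ) + 1) * Real.log (((k : ℝ) + 1) / k) := by
        have h3 := Real.one_sub_inv_le_log_of_pos (x := ((k : ℝ) + 1) / k) (by positivity)
        have h4 : 1 - (((k : ℝ) + 1) / k)⁻¹ = 1 / ((k : ℝ) + 1) := by
          field_simp
          ring
        rw [h4] at h3
        calc (1 : ℝ) = ((k : ℝ) + 1) * (1 / ((k : ℝ) + 1)) := by field_simp
          _ ≤ _ := mul_le_mul_of_nonneg_left h3 (by positivity)
      have h5 : Real.exp 1 ≤ (((k : ℝ) + 1) / k) ^ (k + 1) := by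
        rw [← Real.exp_log (show (0 : ℝ) < ((k : ℝ) + 1) / k by positivity), ← Real.exp_nat_mul]
        apply Real.exp_le_exp.2
        push_cast
        exact h2
      rw [div_pow, le_div_iff₀ (by positivity)] at h5
      exact h5
    have h6 : ((k + 1).factorial : ℝ) = ((k : ℝ) + 1) * (k.factorial : ℝ) := by
      rw [Nat.factorial_succ]; push_cast; ring
    rw [h6]
    have h7 : Real.exp 1 * ((k + 1 : ℕ) : ℝ) * (((k + 1 : ℕ) : ℝ) / Real.exp 1) ^ (k + 1)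
        = ((k : ℝ) + 1) * (((k : ℝ) + 1) ^ (k + 1) / Real.exp 1 ^ k) := by
      push_cast
      rw [div_pow, pow_succ (Real.exp 1)]
      field_simp
    rw [h7]
    apply mul_le_mul_of_nonneg_left _ (by positivity)
    refine ih.trans ?_
    have h8 : Real.exp 1 * k * ((k : ℝ) / Real.exp 1) ^ k
        = (Real.exp 1 * (k : ℝ) ^ (k + 1)) / Real.exp 1 ^ k := by
      rw [div_pow, pow_succ (k : ℝ)]
      field_simp
    rw [h8]
    exact div_le_div_of_nonneg_right h1 (by positivity)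

theorem two_mul_factorial_le (k : ℕ) :
    ((2 * k).factorial : ℝ) ≤ 4 ^ k * (k.factorial : ℝ) * (k.factorial : ℝ) := by
  have h1 : (2 * k).choose k * k.factorial * (2 * k - k).factorial = (2 * k).factorial :=
    Nat.choose_mul_factorial_mul_factorial (by omega)
  have h2 : 2 * k - k = k := by omega
  rw [h2] at h1
  have h3 : (2 * k).choose k ≤ 4 ^ k := by
    have := Nat.choose_le_two_pow (2 * k) k
    rw [pow_mul] at this
    simpa using this
  rw [← h1]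
  push_cast
  have h4 : (((2 * k).choose k : ℕ) : ℝ) ≤ 4 ^ k := by exact_mod_cast h3
  gcongr

section mgf

variable {Ω : Type*} [MeasurableSpace Ω] (μ : Measure Ω) [IsProbabilityMeasure μ]

theorem integrable_of_abs_le {f : Ω → ℝ} (hf : Measurable f) {b : ℝ} (hb : ∀ ω, |f ω| ≤ b) :
    Integrable f μ :=
  Integrable.of_bound hf.aestronglyMeasurable (C := b)
    (Filter.Eventually.of_forall fun ω => by rw [Real.norm_eq_abs]; exact hb ω)

theorem mgf_bound {X : Ω → ℝ} (hX : Measurable X) {b ε t : ℝ} (hb : ∀ ω, |X ω| ≤ b)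
    (h0 : ∫ ω, X ω ∂μ = 0) (h2 : ∫ ω, X ω ^ 2 ∂μ ≤ 1) (hε1 : ε ≤ 1) (hε0 : 0 ≤ ε)
    (ht : |t| * b ≤ ε) :
    ∫ ω, Real.exp (t * X ω) ∂μ ≤ Real.exp ((1 + ε) * t ^ 2 / 2) := by
  have hi1 : Integrable X μ := integrable_of_abs_le μ hX hb
  have hi2 : Integrable (fun ω => X ω ^ 2) μ := by
    refine integrable_of_abs_le μ (hX.pow_const 2) (b := b ^ 2) fun ω => ?_
    rw [abs_pow]
    exact pow_le_pow_left₀ (abs_nonneg _) (hb ω) 2
  have habs : ∀ ω, |t * X ω| ≤ ε := fun ω => by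
    rw [abs_mul]
    exact (mul_le_mul_of_nonneg_left (hb ω) (abs_nonneg t)).trans ht
  have hi3 : Integrable (fun ω => Real.exp (t * X ω)) μ := by
    refine integrable_of_abs_le μ (by fun_prop) (b := Real.exp ε) fun ω => ?_
    rw [abs_of_pos (Real.exp_pos _)]
    exact Real.exp_le_exp.2 ((le_abs_self _).trans (habs ω))
  have h3 : ∫ ω, Real.exp (t * X ω) ∂μ ≤ ∫ ω, (1 + t * X ω + ((1 + ε) * t ^ 2 / 2) * X ω ^ 2) ∂μ := by
    refine integral_mono hi3 ?_ fun ω => ?_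
    · exact ((integrable_const 1).add (hi1.const_mul t)).add (hi2.const_mul _)
    · have := exp_le_quadratic hε1 (habs ω)
      refine this.trans (le_of_eq ?_)
      ring
  have h4 : ∫ ω, (1 + t * X ω + ((1 + ε) * t ^ 2 / 2) * X ω ^ 2) ∂μ
      = 1 + ((1 + ε) * t ^ 2 / 2) * ∫ ω, X ω ^ 2 ∂μ := by
    have ha : Integrable (fun ω => 1 + t * X ω) μ := (integrable_const 1).add (hi1.const_mul t)
    rw [integral_add ha (hi2.const_mul _),
      integral_add (integrable_const 1) (hi1.const_mul t), integral_const_mul, integral_const_mul, h0]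
    simp
  rw [h4] at h3
  refine h3.trans ?_
  have h5 : ((1 + ε) * t ^ 2 / 2) * ∫ ω, X ω ^ 2 ∂μ ≤ ((1 + ε) * t ^ 2 / 2) * 1 := by
    apply mul_le_mul_of_nonneg_left h2
    positivity
  have h6 := Real.add_one_le_exp ((1 + ε) * t ^ 2 / 2)
  linarith

theorem mgf_sum_bound {n : ℕ} {X : Fin n → Ω → ℝ} (hX : ∀ j, Measurable (X j)) {b ε t : ℝ}
    (hb : ∀ j ω, |X j ω| ≤ b) (h0 : ∀ j, ∫ ω, X j ω ∂μ = 0) (h2 : ∀ j, ∫ ω, X j ω ^ 2 ∂μ ≤ 1)
    (hε1 : ε ≤ 1) (hε0 : 0 ≤ ε) (ht : |t| * b ≤ ε) :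
    ∫ h, Real.exp (t * ∑ j, X j (h j)) ∂(Measure.pi fun _ : Fin n => μ)
      ≤ Real.exp (n * ((1 + ε) * t ^ 2 / 2)) := by
  have h1 : ∀ h : Fin n → Ω, Real.exp (t * ∑ j, X j (h j)) = ∏ j, Real.exp (t * X j (h j)) := by
    intro h
    rw [Finset.mul_sum, Real.exp_sum]
  simp_rw [h1]
  rw [integral_fintype_prod_eq_prod (fun j ω => Real.exp (t * X j ω))]
  rw [Real.exp_nat_mul]
  calc ∏ j, ∫ ω, Real.exp (t * X j ω) ∂μ ≤ ∏ _j : Fin n, Real.exp ((1 + ε) * t ^ 2 / 2) := by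
        refine Finset.prod_le_prod (fun j _ => integral_nonneg fun ω => (Real.exp_pos _).le)
          fun j _ => mgf_bound μ (hX j) (hb j) (h0 j) (h2 j) hε1 hε0 ht
    _ = _ := by simp

theorem moment_bound {n : ℕ} (hn : 1 ≤ n) {X : Fin n → Ω → ℝ} (hX : ∀ j, Measurable (X j)) {b ε : ℝ}
    (hb : ∀ j ω, |X j ω| ≤ b) (h0 : ∀ j, ∫ ω, X j ω ∂μ = 0) (h2 : ∀ j, ∫ ω, X j ω ^ 2 ∂μ ≤ 1)
    (hε1 : ε ≤ 1) (hε0 : 0 ≤ ε) (k : ℕ) (hk : 1 ≤ k) (hkn : 2 * k * b ^ 2 ≤ ε ^ 2 * n) :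
    ∫ h, (∑ j, X j (h j)) ^ (2 * k) ∂(Measure.pi fun _ : Fin n => μ)
      ≤ 2 * ((2 * k).factorial : ℝ) * ((1 + ε) * n / (2 * k)) ^ k * Real.exp 1 ^ k := by
  have hn0 : (0 : ℝ) < n := by exact_mod_cast hn
  have hk0 : (0 : ℝ) < k := by exact_mod_cast hk
  set T : ℝ := 2 * k / ((1 + ε) * n) with hT
  have hTpos : 0 < T := by positivity
  set t : ℝ := √T with htdef
  have htpos : 0 < t := Real.sqrt_pos.2 hTpos
  have ht2 : t ^ 2 = T := Real.sq_sqrt hTpos.le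
  have htb : |t| * b ≤ ε := by
    rw [abs_of_pos htpos]
    apply le_of_sq_le_sq _ hε0
    rw [mul_pow, ht2, hT, div_mul_eq_mul_div, div_le_iff₀ (by positivity)]
    refine hkn.trans ?_
    have : ε ^ 2 * n ≤ (1 + ε) * (ε ^ 2 * n) := by
      have : 0 ≤ ε ^ 2 * n := by positivity
      nlinarith
    linarith
  have hmeas : Measurable fun h : Fin n → Ω => ∑ j, X j (h j) :=
    Finset.measurable_sum _ fun j _ => (hX j).comp (measurable_pi_apply j)
  have hbd : ∀ h : Fin n → Ω, |∑ j, X j (h j)| ≤ n * b := by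
    intro h
    refine (Finset.abs_sum_le_sum_abs _ _).trans ?_
    refine (Finset.sum_le_sum fun j _ => hb j (h j)).trans ?_
    simp
  have hie : ∀ τ : ℝ, Integrable (fun h : Fin n → Ω => Real.exp (τ * ∑ j, X j (h j)))
      (Measure.pi fun _ : Fin n => μ) := by
    intro τ
    refine integrable_of_abs_le _ (by fun_prop) (b := Real.exp (|τ| * (n * b))) fun h => ?_
    rw [abs_of_pos (Real.exp_pos _)]
    apply Real.exp_le_exp.2
    refine (le_abs_self _).trans ?_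
    rw [abs_mul]
    exact mul_le_mul_of_nonneg_left (hbd h) (abs_nonneg _)
  have hm1 := mgf_sum_bound μ hX hb h0 h2 hε1 hε0 (t := t) htb
  have hm2 := mgf_sum_bound μ hX hb h0 h2 hε1 hε0 (t := -t) (by rwa [abs_neg])
  rw [neg_sq] at hm2
  have hpt : ∀ h : Fin n → Ω, (∑ j, X j (h j)) ^ (2 * k)
      ≤ ((2 * k).factorial : ℝ) * (T⁻¹) ^ k *
        (Real.exp (t * ∑ j, X j (h j)) + Real.exp (-t * ∑ j, X j (h j))) := by
    intro h
    set Z := ∑ j, X j (h j) with hZ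
    have h3 := Real.pow_div_factorial_le_exp (|t * Z|) (abs_nonneg _) (2 * k)
    have h4 : Real.exp |t * Z| ≤ Real.exp (t * Z) + Real.exp (-t * Z) := by
      rcases abs_cases (t * Z) with h | h
      · rw [h.1]; linarith [Real.exp_pos (-t * Z)]
      · rw [h.1, ← neg_mul]; linarith [Real.exp_pos (t * Z)]
    have h5 : |t * Z| ^ (2 * k) = T ^ k * Z ^ (2 * k) := by
      rw [pow_mul, sq_abs, mul_pow, ht2, mul_pow, pow_mul Z]
    rw [h5, div_le_iff₀ (by positivity)] at h3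
    have h6 : Z ^ (2 * k) = (T⁻¹) ^ k * (T ^ k * Z ^ (2 * k)) := by
      rw [← mul_assoc, ← mul_pow, inv_mul_cancel₀ hTpos.ne', one_pow, one_mul]
    rw [h6]
    calc (T⁻¹) ^ k * (T ^ k * Z ^ (2 * k)) ≤ (T⁻¹) ^ k * (Real.exp |t * Z| * ((2 * k).factorial : ℝ)) := by
          apply mul_le_mul_of_nonneg_left h3; positivity
      _ ≤ (T⁻¹) ^ k * ((Real.exp (t * Z) + Real.exp (-t * Z)) * ((2 * k).factorial : ℝ)) := by
          gcongr
      _ = _ := by ring
  have h7 : ∫ h, (∑ j, X j (h j)) ^ (2 * k) ∂(Measure.pi fun _ : Fin n => μ)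
      ≤ ∫ h, ((2 * k).factorial : ℝ) * (T⁻¹) ^ k *
        (Real.exp (t * ∑ j, X j (h j)) + Real.exp (-t * ∑ j, X j (h j)))
          ∂(Measure.pi fun _ : Fin n => μ) := by
    refine integral_mono ?_ ?_ hpt
    · refine integrable_of_abs_le _ (hmeas.pow_const _) (b := (n * b) ^ (2 * k)) fun h => ?_
      rw [abs_pow]
      exact pow_le_pow_left₀ (abs_nonneg _) (hbd h) _
    · exact ((hie t).add (hie (-t))).const_mul _
  rw [integral_const_mul, integral_add (hie t) (hie (-t))] at h7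
  refine h7.trans ?_
  have h8 : (n : ℝ) * ((1 + ε) * t ^ 2 / 2) = k := by
    rw [ht2, hT]
    have : (1 + ε) ≠ 0 := by positivity
    field_simp
  rw [h8] at hm1 hm2
  have h9 : Real.exp (k : ℝ) = Real.exp 1 ^ k := by
    rw [← Real.exp_nat_mul, mul_one]
  rw [h9] at hm1 hm2
  have h10 : T⁻¹ = (1 + ε) * n / (2 * k) := by
    rw [hT, inv_div]
  rw [← h10]
  calc ((2 * k).factorial : ℝ) * T⁻¹ ^ k * (_ + _)
      ≤ ((2 * k).factorial : ℝ) * T⁻¹ ^ k * (Real.exp 1 ^ k + Real.exp 1 ^ k) := by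
        gcongr
    _ = _ := by ring

end mgf

end Pool.Agent.H92.MF
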