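import Mathlib
import Pool.Agent.H92.MF.GaussN
import Pool.Agent.H92.MF.Moment

/-!
The core estimate: uniformly bounded exponential-type moments up to linear degree.
-/

open MeasureTheory ProbabilityTheory

namespace Pool.Agent.H92.MF

universe u

theorem net (K : Type*) [Fintype K] (ε : ℝ) (hε : 0 < ε) (hε1 : ε ≤ 1) :
    ∃ U : Finset (K → ℝ), U.Nonempty ∧ (∀ u ∈ U, ∑ κ, u κ ^ 2 ≤ 1) ∧
      ∀ x : K → ℝ, ∃ u ∈ U, (1 - ε) ^ 2 * ∑ κ, x κ ^ 2 ≤ (∑ κ, u κ * x κ) ^ 2 := by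
  classical
  obtain ⟨t, hts, htf, hcov⟩ :=
    (isCompact_sphere (0 : EuclideanSpace ℝ K) 1).finite_cover_balls hε
  refine ⟨insert 0 (htf.toFinset.image fun y : EuclideanSpace ℝ K => y.ofLp), Finset.insert_nonempty _ _, ?_, ?_⟩
  · intro u hu
    rw [Finset.mem_insert] at hu
    rcases hu with rfl | hu
    · simp
    · obtain ⟨y, hy, rfl⟩ := Finset.mem_image.1 hu
      have h1 : ‖y‖ = 1 := by
        have := hts (htf.mem_toFinset.1 hy)
        simpa using this
      have h2 := EuclideanSpace.norm_sq_eq y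
      rw [h1] at h2
      simp only [Real.norm_eq_abs, sq_abs] at h2
      linarith
  · intro x
    set y : EuclideanSpace ℝ K := WithLp.toLp 2 x with hy
    have hyx : ∀ κ, y κ = x κ := fun κ => rfl
    have hn2 : ‖y‖ ^ 2 = ∑ κ, x κ ^ 2 := by
      rw [EuclideanSpace.norm_sq_eq]
      simp [hyx]
    by_cases hy0 : y = 0
    · refine ⟨0, Finset.mem_insert_self _ _, ?_⟩
      rw [← hn2, hy0]
      simp
    · have hpos : 0 < ‖y‖ := norm_pos_iff.2 hy0
      have hmem : (‖y‖⁻¹ • y) ∈ Metric.sphere (0 : EuclideanSpace ℝ K) 1 := by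
        rw [mem_sphere_zero_iff_norm, norm_smul, norm_inv, norm_norm, inv_mul_cancel₀ hpos.ne']
      have h3 := hcov hmem
      simp only [Set.mem_iUnion, Metric.mem_ball, exists_prop] at h3
      obtain ⟨z, hz, hdist⟩ := h3
      refine ⟨z.ofLp, Finset.mem_insert_of_mem (Finset.mem_image.2 ⟨z, htf.mem_toFinset.2 hz, rfl⟩), ?_⟩
      have hz1 : ‖z‖ = 1 := by simpa using hts hz
      rw [dist_eq_norm] at hdist
      have h4 : ‖‖y‖⁻¹ • y - z‖ ^ 2 = 2 - 2 * (‖y‖⁻¹ * inner ℝ y z) := by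
        rw [norm_sub_sq_real, inner_smul_left, hz1]
        have : ‖‖y‖⁻¹ • y‖ = 1 := by simpa using hmem
        rw [this]
        simp
        ring
      have h5 : ‖‖y‖⁻¹ • y - z‖ ^ 2 ≤ ε ^ 2 := pow_le_pow_left₀ (norm_nonneg _) hdist.le 2
      have h6 : 1 - ε ≤ ‖y‖⁻¹ * inner ℝ y z := by nlinarith
      have h7 : (1 - ε) * ‖y‖ ≤ inner ℝ y z := by
        have := mul_le_mul_of_nonneg_right h6 hpos.le
        rwa [mul_comm ‖y‖⁻¹, mul_assoc, inv_mul_cancel₀ hpos.ne', mul_one] at this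
      have h8 : inner ℝ y z = ∑ κ, z κ * x κ := by
        rw [PiLp.inner_apply]
        refine Finset.sum_congr rfl fun κ _ => ?_
        rw [hyx]
        simp
      rw [h8] at h7
      rw [← hn2, ← mul_pow]
      exact pow_le_pow_left₀ (mul_nonneg (by linarith) hpos.le) h7 2

theorem term_bound {lam ε n : ℝ} (hε0 : 0 ≤ ε) (hε1 : ε < 1) (hn : 0 < n) (k : ℕ)
    (hk : 1 ≤ k) :
    (lam ^ 2 / (2 * n)) ^ k * (((1 - ε) ^ 2)⁻¹) ^ k / (k.factorial : ℝ) *
      (2 * ((2 * k).factorial : ℝ) * ((1 + ε) * n / (2 * k)) ^ k * Real.exp 1 ^ k)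
      ≤ 2 * Real.exp 1 * k * (lam ^ 2 * (1 + ε) / (1 - ε) ^ 2) ^ k := by
  have hk0 : (0 : ℝ) < k := by exact_mod_cast hk
  have he : (0 : ℝ) < Real.exp 1 := Real.exp_pos 1
  have h1 : (0 : ℝ) < 1 - ε := by linarith
  have hf : (0 : ℝ) < (k.factorial : ℝ) := by positivity
  set A : ℝ := (lam ^ 2 / (2 * n)) ^ k * (((1 - ε) ^ 2)⁻¹) ^ k with hA
  have hA0 : 0 ≤ A := by positivity
  set B : ℝ := ((1 + ε) * n / (2 * k)) ^ k * Real.exp 1 ^ k with hB
  have hB0 : 0 ≤ B := by positivity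
  calc A / (k.factorial : ℝ) * (2 * ((2 * k).factorial : ℝ) * ((1 + ε) * n / (2 * k)) ^ k * Real.exp 1 ^ k)
      = (A * 2 * B) / (k.factorial : ℝ) * ((2 * k).factorial : ℝ) := by
        rw [hB]; ring
    _ ≤ (A * 2 * B) / (k.factorial : ℝ) * (4 ^ k * (k.factorial : ℝ) * (k.factorial : ℝ)) := by
        apply mul_le_mul_of_nonneg_left (two_mul_factorial_le k)
        positivity
    _ = (A * 2 * B) * 4 ^ k * (k.factorial : ℝ) := by
        field_simp
    _ ≤ (A * 2 * B) * 4 ^ k * (Real.exp 1 * k * ((k : ℝ) / Real.exp 1) ^ k) := by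
        apply mul_le_mul_of_nonneg_left (factorial_le_bound k hk)
        positivity
    _ = 2 * Real.exp 1 * k * (lam ^ 2 * (1 + ε) / (1 - ε) ^ 2) ^ k := by
        have h2 : (lam ^ 2 / (2 * n)) * (((1 - ε) ^ 2)⁻¹) * (((1 + ε) * n / (2 * k)) * Real.exp 1) * 4
            * ((k : ℝ) / Real.exp 1) = lam ^ 2 * (1 + ε) / (1 - ε) ^ 2 := by
          field_simp
          ring
        rw [← h2, hA, hB]
        simp only [mul_pow]
        ring

theorem sum_moment_bound (K : Type*) [Fintype K] (lam R : ℝ) (hl0 : 0 ≤ lam) (hl1 : lam < 1) :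
    ∃ δ : ℝ, 0 < δ ∧ ∃ C : ℝ, 0 ≤ C ∧ ∀ (Ω : Type u) [MeasurableSpace Ω] (μ : Measure Ω)
      [IsProbabilityMeasure μ] (n D : ℕ), 1 ≤ n → (D : ℝ) ≤ δ * n →
      ∀ ξ : Fin n → Ω → K → ℝ, (∀ j κ, Measurable fun ω => ξ j ω κ) →
        (∀ j ω, ∑ κ, ξ j ω κ ^ 2 ≤ R ^ 2) → (∀ j κ, ∫ ω, ξ j ω κ ∂μ = 0) →
        (∀ j (u : K → ℝ), ∫ ω, (∑ κ, u κ * ξ j ω κ) ^ 2 ∂μ ≤ ∑ κ, u κ ^ 2) →
        ∫ h, ∑ k ∈ Finset.range (D + 1),
          (lam ^ 2 / (2 * n) * ∑ κ, (∑ j, ξ j (h j) κ) ^ 2) ^ k / (k.factorial : ℝ)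
            ∂(Measure.pi fun _ : Fin n => μ) ≤ C := by
  classical
  set ε : ℝ := (1 - lam) / 4 with hε
  have hε0 : 0 < ε := by rw [hε]; linarith
  have hε1 : ε < 1 := by rw [hε]; linarith
  set q : ℝ := lam ^ 2 * (1 + ε) / (1 - ε) ^ 2 with hq
  have h1ε : (0 : ℝ) < 1 - ε := by linarith
  have hq0 : 0 ≤ q := by positivity
  have hq1 : q < 1 := by
    rw [hq, div_lt_one (by positivity)]
    have hlam : lam = 1 - 4 * ε := by rw [hε]; ring
    rw [hlam] at hl0 ⊢
    nlinarith [sq_nonneg ε]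
  obtain ⟨U, hUne, hU1, hU2⟩ := net K ε hε0 hε1.le
  have hsum : Summable fun k : ℕ => ((k : ℝ) + 1) * q ^ k := by
    have h1 : Summable fun k : ℕ => (k : ℝ) ^ 1 * q ^ k := by
      apply summable_pow_mul_geometric_of_norm_lt_one
      rwa [Real.norm_eq_abs, abs_of_nonneg hq0]
    have h2 : Summable fun k : ℕ => q ^ k := summable_geometric_of_lt_one hq0 hq1
    refine (h1.add h2).congr fun k => ?_
    rw [pow_one]; ring
  set δ : ℝ := ε ^ 2 / (2 * (R ^ 2 + 1)) with hδ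
  have hδ0 : 0 < δ := by positivity
  set C : ℝ := (U.card : ℝ) * (2 * Real.exp 1) * ∑' k : ℕ, ((k : ℝ) + 1) * q ^ k with hC
  have hC0 : 0 ≤ C := by
    apply mul_nonneg (by positivity)
    exact tsum_nonneg fun k => by positivity
  refine ⟨δ, hδ0, C, hC0, ?_⟩
  intro Ω _ μ _ n D hn hD ξ hmeas hbd hmean hcov
  have hn0 : (0 : ℝ) < n := by exact_mod_cast hn
  set X : (K → ℝ) → Fin n → Ω → ℝ := fun u j ω => ∑ κ, u κ * ξ j ω κ with hX
  have hXm : ∀ u j, Measurable (X u j) := fun u j =>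
    Finset.measurable_sum _ fun κ _ => (hmeas j κ).const_mul (u κ)
  have hXb : ∀ u ∈ U, ∀ j ω, |X u j ω| ≤ |R| := by
    intro u hu j ω
    rw [← sq_le_sq]
    calc (X u j ω) ^ 2 ≤ (∑ κ, u κ ^ 2) * ∑ κ, ξ j ω κ ^ 2 :=
          Finset.sum_mul_sq_le_sq_mul_sq _ _ _
      _ ≤ 1 * R ^ 2 := by
          apply mul_le_mul (hU1 u hu) (hbd j ω) (Finset.sum_nonneg fun κ _ => sq_nonneg _) zero_le_one
      _ = R ^ 2 := one_mul _
  have hξb : ∀ j ω κ, |ξ j ω κ| ≤ |R| := by
    intro j ω κ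
    rw [← sq_le_sq]
    exact (Finset.single_le_sum (f := fun κ => ξ j ω κ ^ 2) (fun κ _ => sq_nonneg _)
      (Finset.mem_univ κ)).trans (hbd j ω)
  have hξi : ∀ j κ, Integrable (fun ω => ξ j ω κ) μ := fun j κ =>
    integrable_of_abs_le μ (hmeas j κ) fun ω => hξb j ω κ
  have hX0 : ∀ u j, ∫ ω, X u j ω ∂μ = 0 := by
    intro u j
    simp only [hX]
    rw [integral_finsetSum _ fun κ _ => (hξi j κ).const_mul (u κ)]
    refine Finset.sum_eq_zero fun κ _ => ?_
    rw [integral_const_mul, hmean, mul_zero]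
  have hX2 : ∀ u ∈ U, ∀ j, ∫ ω, X u j ω ^ 2 ∂μ ≤ 1 := fun u hu j =>
    (hcov j u).trans (hU1 u hu)
  -- the random vector
  set W : (Fin n → Ω) → ℝ := fun h => ∑ κ, (∑ j, ξ j (h j) κ) ^ 2 with hW
  have hWm : Measurable W := by
    refine Finset.measurable_sum _ fun κ _ => Measurable.pow_const ?_ 2
    exact Finset.measurable_sum _ fun j _ => (hmeas j κ).comp (measurable_pi_apply j)
  have hWb : ∀ h, |W h| ≤ ∑ _κ : K, (n * |R|) ^ 2 := by
    intro h
    rw [abs_of_nonneg (Finset.sum_nonneg fun κ _ => sq_nonneg _)]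
    refine Finset.sum_le_sum fun κ _ => ?_
    rw [← sq_abs]
    apply pow_le_pow_left₀ (abs_nonneg _)
    refine (Finset.abs_sum_le_sum_abs _ _).trans ?_
    refine (Finset.sum_le_sum fun j _ => hξb j (h j) κ).trans ?_
    simp
  have hterm : ∀ k ∈ Finset.range (D + 1),
      ∫ h, (lam ^ 2 / (2 * n) * W h) ^ k / (k.factorial : ℝ) ∂(Measure.pi fun _ : Fin n => μ)
        ≤ (U.card : ℝ) * (2 * Real.exp 1) * (((k : ℝ) + 1) * q ^ k) := by
    intro k hkD
    have hcard : (1 : ℝ) ≤ U.card := by exact_mod_cast hUne.card_pos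
    by_cases hk0 : k = 0
    · subst hk0
      simp
      have : (1 : ℝ) ≤ Real.exp 1 := Real.one_le_exp zero_le_one
      nlinarith
    · have hk : 1 ≤ k := Nat.one_le_iff_ne_zero.2 hk0
      have hk0' : (0 : ℝ) < k := by exact_mod_cast hk
      have hkn : 2 * (k : ℝ) * |R| ^ 2 ≤ ε ^ 2 * n := by
        have h1 : (k : ℝ) ≤ D := by
          have := Finset.mem_range.1 hkD
          exact_mod_cast Nat.lt_succ_iff.1 this
        have h2 : (k : ℝ) ≤ δ * n := h1.trans hD
        have h3 : δ * (2 * (R ^ 2 + 1)) = ε ^ 2 := by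
          rw [hδ]; field_simp
        rw [sq_abs]
        have h4 : 2 * (k : ℝ) * R ^ 2 ≤ 2 * (k : ℝ) * (R ^ 2 + 1) := by nlinarith
        have h5 : 2 * (k : ℝ) * (R ^ 2 + 1) ≤ 2 * (δ * n) * (R ^ 2 + 1) := by
          have : 0 ≤ R ^ 2 + 1 := by positivity
          nlinarith
        calc _ ≤ _ := h4
          _ ≤ _ := h5
          _ = (δ * (2 * (R ^ 2 + 1))) * n := by ring
          _ = ε ^ 2 * n := by rw [h3]
      have hpt : ∀ h, (lam ^ 2 / (2 * n) * W h) ^ k / (k.factorial : ℝ)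
          ≤ ∑ u ∈ U, (lam ^ 2 / (2 * n)) ^ k * (((1 - ε) ^ 2)⁻¹) ^ k / (k.factorial : ℝ)
              * (∑ j, X u j (h j)) ^ (2 * k) := by
        intro h
        obtain ⟨u, huU, hu⟩ := hU2 fun κ => ∑ j, ξ j (h j) κ
        have h1 : ∑ κ, u κ * ∑ j, ξ j (h j) κ = ∑ j, X u j (h j) := by
          simp only [hX, Finset.mul_sum]
          rw [Finset.sum_comm]
        rw [h1] at hu
        have h2 : W h ≤ ((1 - ε) ^ 2)⁻¹ * (∑ j, X u j (h j)) ^ 2 := by
          rw [inv_mul_eq_div, le_div_iff₀ (by positivity), mul_comm]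
          exact hu
        have hW0 : 0 ≤ W h := Finset.sum_nonneg fun κ _ => sq_nonneg _
        refine le_trans ?_ (Finset.single_le_sum (f := fun u => (lam ^ 2 / (2 * n)) ^ k *
          (((1 - ε) ^ 2)⁻¹) ^ k / (k.factorial : ℝ) * (∑ j, X u j (h j)) ^ (2 * k)) ?_ huU)
        · rw [mul_pow, div_mul_eq_mul_div, mul_assoc, pow_mul, ← mul_pow (((1 - ε) ^ 2)⁻¹)]
          apply div_le_div_of_nonneg_right _ (by positivity)
          apply mul_le_mul_of_nonneg_left _ (by positivity)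
          exact pow_le_pow_left₀ hW0 h2 k
        · intro v _
          have : 0 ≤ (∑ j, X v j (h j)) ^ (2 * k) := by rw [pow_mul]; positivity
          positivity
      have hint : ∀ u ∈ U, Integrable (fun h : Fin n → Ω => (∑ j, X u j (h j)) ^ (2 * k))
          (Measure.pi fun _ : Fin n => μ) := by
        intro u hu
        refine integrable_of_abs_le _ ?_ (b := (n * |R|) ^ (2 * k)) fun h => ?_
        · exact (Finset.measurable_sum _ fun j _ => (hXm u j).comp (measurable_pi_apply j)).pow_const _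
        · rw [abs_pow]
          apply pow_le_pow_left₀ (abs_nonneg _)
          refine (Finset.abs_sum_le_sum_abs _ _).trans ?_
          refine (Finset.sum_le_sum fun j _ => hXb u hu j (h j)).trans ?_
          simp
      calc ∫ h, (lam ^ 2 / (2 * n) * W h) ^ k / (k.factorial : ℝ) ∂(Measure.pi fun _ : Fin n => μ)
          ≤ ∫ h, ∑ u ∈ U, (lam ^ 2 / (2 * n)) ^ k * (((1 - ε) ^ 2)⁻¹) ^ k / (k.factorial : ℝ)
              * (∑ j, X u j (h j)) ^ (2 * k) ∂(Measure.pi fun _ : Fin n => μ) := by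
            refine integral_mono ?_ ?_ hpt
            · refine integrable_of_abs_le _ (by fun_prop)
                (b := (lam ^ 2 / (2 * n) * ∑ _κ : K, (n * |R|) ^ 2) ^ k / (k.factorial : ℝ)) fun h => ?_
              rw [abs_div, abs_pow, abs_mul, abs_of_nonneg (show (0 : ℝ) ≤ lam ^ 2 / (2 * n) by positivity),
                abs_of_pos (show (0 : ℝ) < (k.factorial : ℝ) by positivity)]
              apply div_le_div_of_nonneg_right _ (by positivity)
              apply pow_le_pow_left₀ (by positivity)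
              exact mul_le_mul_of_nonneg_left (hWb h) (by positivity)
            · exact integrable_finsetSum _ fun u hu => (hint u hu).const_mul _
        _ = ∑ u ∈ U, (lam ^ 2 / (2 * n)) ^ k * (((1 - ε) ^ 2)⁻¹) ^ k / (k.factorial : ℝ)
              * ∫ h, (∑ j, X u j (h j)) ^ (2 * k) ∂(Measure.pi fun _ : Fin n => μ) := by
            rw [integral_finsetSum _ fun u hu => (hint u hu).const_mul _]
            refine Finset.sum_congr rfl fun u _ => ?_
            rw [integral_const_mul]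
        _ ≤ ∑ _u ∈ U, 2 * Real.exp 1 * k * q ^ k := by
            refine Finset.sum_le_sum fun u hu => ?_
            refine le_trans ?_ (term_bound (lam := lam) hε0.le hε1 hn0 k hk)
            apply mul_le_mul_of_nonneg_left _ (by positivity)
            exact moment_bound μ hn (hXm u) (hXb u hu) (hX0 u) (hX2 u hu) hε1.le hε0.le k hk hkn
        _ = (U.card : ℝ) * (2 * Real.exp 1) * ((k : ℝ) * q ^ k) := by
            rw [Finset.sum_const, nsmul_eq_mul]; ring
        _ ≤ _ := by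
            apply mul_le_mul_of_nonneg_left _ (by positivity)
            apply mul_le_mul_of_nonneg_right _ (by positivity)
            linarith
  have hWint : ∀ k ∈ Finset.range (D + 1),
      Integrable (fun h => (lam ^ 2 / (2 * n) * W h) ^ k / (k.factorial : ℝ))
        (Measure.pi fun _ : Fin n => μ) := by
    intro k _
    refine integrable_of_abs_le _ (by fun_prop)
      (b := (lam ^ 2 / (2 * n) * ∑ _κ : K, (n * |R|) ^ 2) ^ k / (k.factorial : ℝ)) fun h => ?_
    rw [abs_div, abs_pow, abs_mul, abs_of_nonneg (show (0 : ℝ) ≤ lam ^ 2 / (2 * n) by positivity),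
      abs_of_pos (show (0 : ℝ) < (k.factorial : ℝ) by positivity)]
    apply div_le_div_of_nonneg_right _ (by positivity)
    apply pow_le_pow_left₀ (by positivity)
    exact mul_le_mul_of_nonneg_left (hWb h) (by positivity)
  rw [integral_finsetSum _ hWint]
  calc ∑ k ∈ Finset.range (D + 1), ∫ h, (lam ^ 2 / (2 * n) * W h) ^ k / (k.factorial : ℝ)
        ∂(Measure.pi fun _ : Fin n => μ)
      ≤ ∑ k ∈ Finset.range (D + 1), (U.card : ℝ) * (2 * Real.exp 1) * (((k : ℝ) + 1) * q ^ k) :=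
        Finset.sum_le_sum hterm
    _ = (U.card : ℝ) * (2 * Real.exp 1) * ∑ k ∈ Finset.range (D + 1), (((k : ℝ) + 1) * q ^ k) := by
        rw [Finset.mul_sum]
    _ ≤ C := by
        rw [hC]
        apply mul_le_mul_of_nonneg_left _ (by positivity)
        exact hsum.sum_le_tsum _ fun k _ => by positivity

end Pool.Agent.H92.MF
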