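import Mathlib
import Pool.Agent.H92.MF.Core

/-!
Linear changes of variables, and the bound for an abstract additive model.
-/

open MeasureTheory ProbabilityTheory

namespace Pool.Agent.H92.MF

universe u v

theorem totalDegree_aeval_le {ι ι' : Type*} (l : ι' → MvPolynomial ι ℝ)
    (h : ∀ v, (l v).totalDegree ≤ 1) (f : MvPolynomial ι' ℝ) :
    (MvPolynomial.aeval l f).totalDegree ≤ f.totalDegree := by
  classical
  rw [MvPolynomial.aeval_def, MvPolynomial.eval₂_eq]
  refine (MvPolynomial.totalDegree_finsetSum _ _).trans (Finset.sup_le fun β hβ => ?_)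
  refine (MvPolynomial.totalDegree_mul _ _).trans ?_
  have h1 : (algebraMap ℝ (MvPolynomial ι ℝ) (MvPolynomial.coeff β f)).totalDegree = 0 := by
    rw [MvPolynomial.algebraMap_eq, MvPolynomial.totalDegree_C]
  rw [h1, zero_add]
  refine (MvPolynomial.totalDegree_finsetProd _ _).trans ?_
  refine le_trans ?_ (MvPolynomial.le_totalDegree hβ)
  rw [Finsupp.sum]
  refine Finset.sum_le_sum fun i _ => ?_
  refine (MvPolynomial.totalDegree_pow _ _).trans ?_
  calc β i * (l i).totalDegree ≤ β i * 1 := Nat.mul_le_mul_left _ (h i)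
    _ = β i := mul_one _

theorem exists_comp_linear {ι ι' : Type*} [Fintype ι] (Lm : (ι → ℝ) →ₗ[ℝ] (ι' → ℝ))
    (f : MvPolynomial ι' ℝ) :
    ∃ F : MvPolynomial ι ℝ, F.totalDegree ≤ f.totalDegree ∧
      ∀ w, MvPolynomial.eval w F = MvPolynomial.eval (Lm w) f := by
  classical
  set l : ι' → MvPolynomial ι ℝ := fun v =>
    ∑ u, MvPolynomial.C (Lm (Pi.single u 1) v) * MvPolynomial.X u with hl
  refine ⟨MvPolynomial.aeval l f, totalDegree_aeval_le l ?_ f, ?_⟩
  · intro v
    refine (MvPolynomial.totalDegree_finsetSum _ _).trans (Finset.sup_le fun u _ => ?_)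
    refine (MvPolynomial.totalDegree_mul _ _).trans ?_
    rw [MvPolynomial.totalDegree_C, MvPolynomial.totalDegree_X]
  · intro w
    have h1 : ∀ v, MvPolynomial.eval w (l v) = Lm w v := by
      intro v
      rw [hl, map_sum]
      simp only [map_mul, MvPolynomial.eval_C, MvPolynomial.eval_X]
      have h2 : w = ∑ u, w u • (Pi.single u (1 : ℝ) : ι → ℝ) := by
        funext i
        simp [Finset.sum_apply, Pi.single_apply]
      conv_rhs => rw [h2, map_sum]
      rw [Finset.sum_apply]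
      refine Finset.sum_congr rfl fun u _ => ?_
      rw [map_smul, Pi.smul_apply, smul_eq_mul, mul_comm]
    have h3 : MvPolynomial.eval w (MvPolynomial.aeval l f)
        = MvPolynomial.eval (fun v => MvPolynomial.eval w (l v)) f := by
      rw [← MvPolynomial.coe_aeval_eq_eval, ← MvPolynomial.coe_aeval_eq_eval]
      simp only [RingHom.coe_coe]
      have := MvPolynomial.comp_aeval_apply (φ := (MvPolynomial.aeval w : MvPolynomial ι ℝ →ₐ[ℝ] ℝ)) l f
      rw [this]
    rw [h3]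
    congr 2
    funext v
    exact h1 v

/-- The bound for an abstract additive Gaussian model whose overlap is a quadratic form in a sum of
independent bounded centred vectors. -/
theorem additive_model_bound (K : Type*) [Fintype K] (lam R : ℝ) (hl0 : 0 ≤ lam) (hl1 : lam < 1) :
    ∃ δ : ℝ, 0 < δ ∧ ∃ C : ℝ, 0 ≤ C ∧ ∀ (Ω : Type u) [MeasurableSpace Ω] (μ : Measure Ω)
      [IsProbabilityMeasure μ] (n D : ℕ), 1 ≤ n → (D : ℝ) ≤ δ * n →
      ∀ (ι : Type v) [Fintype ι] (s : (Fin n → Ω) → ι → ℝ), (∀ i, Measurable fun g => s g i) →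
      ∀ (B : ℝ), (∀ g i, |s g i| ≤ B) →
      ∀ ξ : Ω → Ω → K → ℝ, (∀ x κ, Measurable fun y => ξ x y κ) →
        (∀ x y, ∑ κ, ξ x y κ ^ 2 ≤ R ^ 2) → (∀ x κ, ∫ y, ξ x y κ ∂μ = 0) →
        (∀ x (u : K → ℝ), ∫ y, (∑ κ, u κ * ξ x y κ) ^ 2 ∂μ ≤ ∑ κ, u κ ^ 2) →
        (∀ g g', ∑ i, s g i * s g' i = lam ^ 2 / (2 * n) * ∑ κ, (∑ j, ξ (g j) (g' j) κ) ^ 2) →
      ∀ f : MvPolynomial ι ℝ, f.totalDegree ≤ D →
        (∫ g, ∫ w, MvPolynomial.eval (s g + w) f ∂(gN ι) ∂(Measure.pi fun _ : Fin n => μ)) ^ 2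
          ≤ C * ∫ w, (MvPolynomial.eval w f) ^ 2 ∂(gN ι) := by
  classical
  obtain ⟨δ, hδ, C, hC, H⟩ := sum_moment_bound.{u} K lam R hl0 hl1
  refine ⟨δ, hδ, C, hC, ?_⟩
  intro Ω _ μ _ n D hn hD ι _ s hs B hB ξ hξm hξb hξ0 hξc hgram f hf
  have h1 := low_degree_bound (Measure.pi fun _ : Fin n => μ) s hs B hB f D hf
  refine h1.trans ?_
  rw [mul_comm]
  apply mul_le_mul_of_nonneg_right _ (integral_nonneg fun w => sq_nonneg _)
  have h2 : ∀ g, ∫ g', ∑ k ∈ Finset.range (D + 1), (∑ i, s g i * s g' i) ^ k / (k.factorial : ℝ)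
      ∂(Measure.pi fun _ : Fin n => μ) ≤ C := by
    intro g
    simp_rw [hgram]
    exact H Ω μ n D hn hD (fun j => ξ (g j)) (fun j κ => hξm (g j) κ) (fun j y => hξb (g j) y)
      (fun j κ => hξ0 (g j) κ) (fun j u => hξc (g j) u)
  by_cases hi : Integrable (fun g => ∫ g', ∑ k ∈ Finset.range (D + 1),
      (∑ i, s g i * s g' i) ^ k / (k.factorial : ℝ) ∂(Measure.pi fun _ : Fin n => μ))
      (Measure.pi fun _ : Fin n => μ)
  · refine (integral_mono hi (integrable_const C) h2).trans ?_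
    simp
  · rw [integral_undef hi]
    exact hC

end Pool.Agent.H92.MF
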