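import Mathlib
import Pool.Agent.H92.MF.Lin

/-!
Multi-frequency synchronization models.
-/

open MeasureTheory ProbabilityTheory Matrix

namespace Pool.Agent.H92.MF

/-- The real coordinates of a family of complex Hermitian block matrices, one for every frequency
`a : Λ`, the `a`-th of them with `n` times `n` blocks of size `d a` times `d a`:
row index, column index, and `false` for the real part, `true` for the imaginary part. -/
abbrev Idx {Λ : Type} (n : ℕ) (d : Λ → ℕ) : Type :=
  Σ a : Λ, (Fin n × Fin (d a)) × (Fin n × Fin (d a)) × Bool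

/-- real part (`false`) or imaginary part (`true`) of a complex number -/
def part (b : Bool) (z : ℂ) : ℝ := if b then z.im else z.re

/-- the vector of all real and imaginary parts of entries of a family of matrices -/
def coords {Λ : Type} {n : ℕ} {d : Λ → ℕ}
    (Y : (a : Λ) → Matrix (Fin n × Fin (d a)) (Fin n × Fin (d a)) ℂ) : Idx n d → ℝ :=
  fun v => part v.2.2.2 (Y v.1 v.2.1 v.2.2.1)

/-- The family of complex matrices with prescribed real and imaginary parts of entries. If the
coordinates of `w` are independent standard Gaussians, these are independent complex Ginibre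
matrices (independent entries, with independent standard Gaussian real and imaginary parts). -/
def ginibre {Λ : Type} {n : ℕ} {d : Λ → ℕ} (w : Idx n d → ℝ) (a : Λ) :
    Matrix (Fin n × Fin (d a)) (Fin n × Fin (d a)) ℂ :=
  fun p q => ⟨w ⟨a, p, q, false⟩, w ⟨a, p, q, true⟩⟩

/-- the real-linear map sending every `e` times `e` block `B` to `J (conj B) Jᴴ` -/
def tau {n e : ℕ} (J : Matrix (Fin e) (Fin e) ℂ)
    (A : Matrix (Fin n × Fin e) (Fin n × Fin e) ℂ) : Matrix (Fin n × Fin e) (Fin n × Fin e) ℂ :=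
  fun p q => (J * (Matrix.of fun k l => starRingEnd ℂ (A (p.1, k) (q.1, l))) * Jᴴ) p.2 q.2

/-- The Gaussian noise matrix made of a complex Ginibre matrix `A`. For `none` it is the Hermitian
(GUE) matrix `(A + Aᴴ) / 2`, with off-diagonal entries of unit variance. For `some J` it is
`√2` times the orthogonal projection of `A` to the real space of Hermitian matrices fixed by
`tau J`: for `J = 1` this is the real symmetric GOE matrix `(Re A + Re Aᵀ) / √2` with off-diagonal
entries of unit variance, and for a symplectic `J` the quaternionic GSE matrix with entries of unit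
variance. -/
noncomputable def noise {n e : ℕ} (J : Option (Matrix (Fin e) (Fin e) ℂ))
    (A : Matrix (Fin n × Fin e) (Fin n × Fin e) ℂ) : Matrix (Fin n × Fin e) (Fin n × Fin e) ℂ :=
  match J with
  | none => (1 / 2 : ℝ) • (A + Aᴴ)
  | some J => (√2 / 4 : ℝ) • (A + Aᴴ + tau J A + (tau J A)ᴴ)

/-- The pure noise observations: for every frequency `a` the matrix `W_a / √(n d_a)`. -/
noncomputable def nullObs {Λ : Type} {n : ℕ} {d : Λ → ℕ}
    (J : (a : Λ) → Option (Matrix (Fin (d a)) (Fin (d a)) ℂ)) (w : Idx n d → ℝ) (a : Λ) :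
    Matrix (Fin n × Fin (d a)) (Fin n × Fin (d a)) ℂ :=
  (1 / √((n : ℝ) * d a) : ℝ) • noise (J a) (ginibre w a)

/-- The rank `d_a` signal: the block matrix with `(k, j)` block `U_a(g_k) U_a(g_j)ᴴ`. -/
def signal {Ω : Type} {Λ : Type} {d : Λ → ℕ} (U : (a : Λ) → Ω → Matrix (Fin (d a)) (Fin (d a)) ℂ)
    {n : ℕ} (g : Fin n → Ω) (a : Λ) : Matrix (Fin n × Fin (d a)) (Fin n × Fin (d a)) ℂ :=
  fun p q => (U a (g p.1) * (U a (g q.1))ᴴ) p.2 q.2

/-- The observations: `(λ / n) U_a(g_k) U_a(g_j)ᴴ + W_a / √(n d_a)` for every frequency `a`. -/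
noncomputable def obs {Ω : Type} {Λ : Type} {d : Λ → ℕ}
    (U : (a : Λ) → Ω → Matrix (Fin (d a)) (Fin (d a)) ℂ)
    (J : (a : Λ) → Option (Matrix (Fin (d a)) (Fin (d a)) ℂ)) (lam : ℝ)
    {n : ℕ} (g : Fin n → Ω) (w : Idx n d → ℝ) (a : Λ) :
    Matrix (Fin n × Fin (d a)) (Fin n × Fin (d a)) ℂ :=
  (lam / n : ℝ) • signal U g a + nullObs J w a

/-- expectation of the statistic `f` under the null model -/
noncomputable def nullE {Λ : Type} [Fintype Λ] {d : Λ → ℕ}
    (J : (a : Λ) → Option (Matrix (Fin (d a)) (Fin (d a)) ℂ)) {n : ℕ}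
    (f : MvPolynomial (Idx n d) ℝ) : ℝ :=
  ∫ w, MvPolynomial.eval (coords (nullObs J w)) f ∂(Measure.pi fun _ : Idx n d => gaussianReal 0 1)

/-- variance of the statistic `f` under the null model -/
noncomputable def nullVar {Λ : Type} [Fintype Λ] {d : Λ → ℕ}
    (J : (a : Λ) → Option (Matrix (Fin (d a)) (Fin (d a)) ℂ)) {n : ℕ}
    (f : MvPolynomial (Idx n d) ℝ) : ℝ :=
  ∫ w, (MvPolynomial.eval (coords (nullObs J w)) f - nullE J f) ^ 2
    ∂(Measure.pi fun _ : Idx n d => gaussianReal 0 1)

/-- expectation of the statistic `f` under the planted model: the `g_j` are independent with law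
`μ`, and independent of the noise -/
noncomputable def plantedE {Ω : Type} [MeasurableSpace Ω] (μ : Measure Ω) {Λ : Type} [Fintype Λ]
    {d : Λ → ℕ} (U : (a : Λ) → Ω → Matrix (Fin (d a)) (Fin (d a)) ℂ)
    (J : (a : Λ) → Option (Matrix (Fin (d a)) (Fin (d a)) ℂ)) (lam : ℝ) {n : ℕ}
    (f : MvPolynomial (Idx n d) ℝ) : ℝ :=
  ∫ g, ∫ w, MvPolynomial.eval (coords (obs U J lam g w)) f
    ∂(Measure.pi fun _ : Idx n d => gaussianReal 0 1) ∂(Measure.pi fun _ : Fin n => μ)

/-- The orthogonality relations used in the proof. -/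
structure Orth {Ω : Type} [MeasurableSpace Ω] (μ : Measure Ω) {Λ : Type} (d : Λ → ℕ)
    (U : (a : Λ) → Ω → Matrix (Fin (d a)) (Fin (d a)) ℂ)
    (J : (a : Λ) → Option (Matrix (Fin (d a)) (Fin (d a)) ℂ)) : Prop where
  pos : ∀ a, 0 < d a
  meas : ∀ a i j, Measurable fun x => U a x i j
  unit : ∀ a x, (U a x)ᴴ * U a x = 1
  mean : ∀ a i j, ∫ x, U a x i j ∂μ = 0
  orth : ∀ a i j k l, ∫ x, U a x i j * starRingEnd ℂ (U a x k l) ∂μ
    = if i = k ∧ j = l then 1 / (d a : ℂ) else 0
  orth' : ∀ a b, a ≠ b → ∀ i j k l, ∫ x, U a x i j * starRingEnd ℂ (U b x k l) ∂μ = 0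
  orth'' : ∀ a b, a ≠ b → ∀ i j k l, ∫ x, U a x i j * U b x k l ∂μ = 0
  cplx : ∀ a, J a = none → ∀ i j k l, ∫ x, U a x i j * U a x k l ∂μ = 0
  self : ∀ a V, J a = some V → V * Vᴴ = 1 ∧ ∀ x, U a x * V = V * (U a x).map (starRingEnd ℂ)

section noise

variable {n e : ℕ}

theorem tau_add (J : Matrix (Fin e) (Fin e) ℂ) (A B : Matrix (Fin n × Fin e) (Fin n × Fin e) ℂ) :
    tau J (A + B) = tau J A + tau J B := by
  ext p q
  have h : (Matrix.of fun k l => starRingEnd ℂ ((A + B) (p.1, k) (q.1, l)))
      = (Matrix.of fun k l => starRingEnd ℂ (A (p.1, k) (q.1, l)))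
        + (Matrix.of fun k l => starRingEnd ℂ (B (p.1, k) (q.1, l))) := by
    ext k l; simp
  rw [Matrix.add_apply]
  simp only [tau]
  rw [h, Matrix.mul_add, Matrix.add_mul, Matrix.add_apply]

theorem tau_smul (J : Matrix (Fin e) (Fin e) ℂ) (c : ℝ)
    (A : Matrix (Fin n × Fin e) (Fin n × Fin e) ℂ) : tau J (c • A) = c • tau J A := by
  ext p q
  have h : (Matrix.of fun k l => starRingEnd ℂ ((c • A) (p.1, k) (q.1, l)))
      = c • (Matrix.of fun k l => starRingEnd ℂ (A (p.1, k) (q.1, l))) := by
    ext k l; simp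
  rw [Matrix.smul_apply]
  simp only [tau]
  rw [h, Matrix.mul_smul, Matrix.smul_mul, Matrix.smul_apply]

theorem noise_add (J : Option (Matrix (Fin e) (Fin e) ℂ))
    (A B : Matrix (Fin n × Fin e) (Fin n × Fin e) ℂ) :
    noise J (A + B) = noise J A + noise J B := by
  cases J with
  | none => simp only [noise, Matrix.conjTranspose_add]; rw [← smul_add]; congr 1; abel
  | some J =>
    simp only [noise, tau_add, Matrix.conjTranspose_add]; rw [← smul_add]; congr 1; abel

theorem noise_smul (J : Option (Matrix (Fin e) (Fin e) ℂ)) (c : ℝ)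
    (A : Matrix (Fin n × Fin e) (Fin n × Fin e) ℂ) :
    noise J (c • A) = c • noise J A := by
  cases J with
  | none =>
    simp only [noise, Matrix.conjTranspose_smul, star_trivial]
    rw [← smul_add, smul_comm]
  | some J =>
    simp only [noise, tau_smul, Matrix.conjTranspose_smul, star_trivial]
    rw [← smul_add, ← smul_add, ← smul_add, smul_comm]

end noise

section lin

variable {Λ : Type} {n : ℕ} {d : Λ → ℕ}

theorem part_add (b : Bool) (z z' : ℂ) : part b (z + z') = part b z + part b z' := by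
  cases b <;> simp [part]

theorem part_smul (b : Bool) (c : ℝ) (z : ℂ) : part b (c • z) = c * part b z := by
  cases b <;> simp [part]

theorem coords_add (Y Y' : (a : Λ) → Matrix (Fin n × Fin (d a)) (Fin n × Fin (d a)) ℂ) :
    coords (fun a => Y a + Y' a) = coords Y + coords Y' := by
  funext v
  simp only [coords, Matrix.add_apply, part_add, Pi.add_apply]

theorem coords_smul (c : ℝ) (Y : (a : Λ) → Matrix (Fin n × Fin (d a)) (Fin n × Fin (d a)) ℂ) :
    coords (fun a => c • Y a) = c • coords Y := by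
  funext v
  simp only [coords, Matrix.smul_apply, part_smul, Pi.smul_apply, smul_eq_mul]

theorem ginibre_add (w w' : Idx n d → ℝ) (a : Λ) :
    ginibre (w + w') a = ginibre w a + ginibre w' a := by
  ext p q
  apply Complex.ext <;> simp [ginibre]

theorem ginibre_smul (c : ℝ) (w : Idx n d → ℝ) (a : Λ) :
    ginibre (c • w) a = c • ginibre w a := by
  ext p q
  apply Complex.ext <;> simp [ginibre]

/-- the linear map from the Gaussian coordinates to the coordinates of the pure noise observations -/
noncomputable def obsLin (J : (a : Λ) → Option (Matrix (Fin (d a)) (Fin (d a)) ℂ)) :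
    (Idx n d → ℝ) →ₗ[ℝ] (Idx n d → ℝ) where
  toFun w := coords (nullObs J w)
  map_add' w w' := by
    rw [← coords_add]
    congr 1; funext a
    simp only [nullObs, ginibre_add, noise_add, smul_add]
  map_smul' c w := by
    rw [RingHom.id_apply, ← coords_smul]
    congr 1; funext a
    simp only [nullObs, ginibre_smul, noise_smul]
    rw [smul_comm]

end lin

end Pool.Agent.H92.MF
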