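import Mathlib
import Pool.Agent.H92.MF.Model

/-!
Covariance of the overlap vectors.
-/

open MeasureTheory ProbabilityTheory Matrix

namespace Pool.Agent.H92.MF

section unitary

variable {e : ℕ}

theorem sum_normSq_of_unit (V : Matrix (Fin e) (Fin e) ℂ) (hV : Vᴴ * V = 1) :
    ∑ k, ∑ l, Complex.normSq (V k l) = e := by
  have h : ∀ l, ∑ k, (starRingEnd ℂ (V k l)) * V k l = 1 := by
    intro l
    have := congrFun (congrFun hV l) l
    rw [Matrix.mul_apply, Matrix.one_apply_eq] at this
    simpa [Matrix.conjTranspose_apply] using this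
  have h2 : ∑ l : Fin e, ∑ k, (starRingEnd ℂ (V k l)) * V k l = e := by
    simp_rw [h]; simp
  rw [Finset.sum_comm] at h2
  have h3 : ((∑ k, ∑ l, Complex.normSq (V k l) : ℝ) : ℂ) = ((e : ℝ) : ℂ) := by
    push_cast
    rw [← h2]
    refine Finset.sum_congr rfl fun k _ => Finset.sum_congr rfl fun l _ => ?_
    rw [Complex.normSq_eq_conj_mul_self]
  exact_mod_cast h3

theorem norm_entry_le (V : Matrix (Fin e) (Fin e) ℂ) (hV : Vᴴ * V = 1) (k l : Fin e) :
    ‖V k l‖ ≤ 1 := by
  have h : ∑ k, Complex.normSq (V k l) = 1 := by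
    have h1 := congrFun (congrFun hV l) l
    rw [Matrix.mul_apply, Matrix.one_apply_eq] at h1
    have h3 : ((∑ k, Complex.normSq (V k l) : ℝ) : ℂ) = ((1 : ℝ) : ℂ) := by
      push_cast
      rw [← h1]
      refine Finset.sum_congr rfl fun k _ => ?_
      rw [Complex.normSq_eq_conj_mul_self, Matrix.conjTranspose_apply]
      rfl
    exact_mod_cast h3
  have h2 : Complex.normSq (V k l) ≤ 1 := by
    rw [← h]
    exact Finset.single_le_sum (f := fun k => Complex.normSq (V k l))
      (fun k _ => Complex.normSq_nonneg _) (Finset.mem_univ k)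
  rw [Complex.normSq_eq_norm_sq] at h2
  nlinarith [norm_nonneg (V k l)]

/-- sum of squared absolute values of entries is preserved by multiplication by a unitary matrix -/
theorem sum_normSq_mul (V Z : Matrix (Fin e) (Fin e) ℂ) (hV : Vᴴ * V = 1) :
    ∑ k, ∑ l, Complex.normSq ((V * Z) k l) = ∑ k, ∑ l, Complex.normSq (Z k l) := by
  have h1 : ∀ A : Matrix (Fin e) (Fin e) ℂ,
      ((∑ k, ∑ l, Complex.normSq (A k l) : ℝ) : ℂ) = Matrix.trace (Aᴴ * A) := by
    intro A
    rw [Matrix.trace]
    push_cast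
    rw [Finset.sum_comm]
    refine Finset.sum_congr rfl fun l _ => ?_
    rw [Matrix.diag_apply, Matrix.mul_apply]
    refine Finset.sum_congr rfl fun k _ => ?_
    rw [Complex.normSq_eq_conj_mul_self, Matrix.conjTranspose_apply]
    rfl
  have h2 : ((∑ k, ∑ l, Complex.normSq ((V * Z) k l) : ℝ) : ℂ)
      = ((∑ k, ∑ l, Complex.normSq (Z k l) : ℝ) : ℂ) := by
    rw [h1, h1, Matrix.conjTranspose_mul, Matrix.mul_assoc, ← Matrix.mul_assoc Vᴴ, hV, Matrix.one_mul]
  exact_mod_cast h2

end unitary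

section cov

variable {Ω : Type} [MeasurableSpace Ω] {μ : Measure Ω} [IsProbabilityMeasure μ] {Λ : Type}
  [Fintype Λ] {d : Λ → ℕ} {U : (a : Λ) → Ω → Matrix (Fin (d a)) (Fin (d a)) ℂ}
  {J : (a : Λ) → Option (Matrix (Fin (d a)) (Fin (d a)) ℂ)}

/-- the linear form with coefficients `conj z` -/
noncomputable def lf (U : (a : Λ) → Ω → Matrix (Fin (d a)) (Fin (d a)) ℂ)
    (z : (a : Λ) → Matrix (Fin (d a)) (Fin (d a)) ℂ) (a : Λ) (y : Ω) : ℂ :=
  ∑ p : Fin (d a) × Fin (d a), starRingEnd ℂ (z a p.1 p.2) * U a y p.1 p.2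

/-- squared Frobenius norm -/
noncomputable def fr {e : ℕ} (z : Matrix (Fin e) (Fin e) ℂ) : ℝ :=
  ∑ p : Fin e × Fin e, Complex.normSq (z p.1 p.2)

theorem integrable_of_norm_le {f : Ω → ℂ} (hf : Measurable f) {b : ℝ} (hb : ∀ ω, ‖f ω‖ ≤ b) :
    Integrable f μ :=
  Integrable.of_bound hf.aestronglyMeasurable (C := b) (Filter.Eventually.of_forall hb)

omit [Fintype Λ] [IsProbabilityMeasure μ] in
theorem lf_meas (H : Orth μ d U J) (z) (a : Λ) : Measurable (lf U z a) := by
  refine Finset.measurable_sum _ fun p _ => ?_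
  exact (H.meas a p.1 p.2).const_mul _

omit [Fintype Λ] [IsProbabilityMeasure μ] in
theorem lf_bound (H : Orth μ d U J) (z) (a : Λ) (y : Ω) :
    ‖lf U z a y‖ ≤ ∑ p : Fin (d a) × Fin (d a), ‖z a p.1 p.2‖ := by
  refine (norm_sum_le _ _).trans (Finset.sum_le_sum fun p _ => ?_)
  rw [norm_mul, RCLike.norm_conj]
  have := norm_entry_le (U a y) (H.unit a y) p.1 p.2
  calc ‖z a p.1 p.2‖ * ‖U a y p.1 p.2‖ ≤ ‖z a p.1 p.2‖ * 1 := by gcongr
    _ = _ := mul_one _

omit [Fintype Λ] in
theorem ent_int (H : Orth μ d U J) (a b : Λ) (i j : Fin (d a)) (k l : Fin (d b)) :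
    Integrable (fun x => U a x i j * starRingEnd ℂ (U b x k l)) μ := by
  refine integrable_of_norm_le ?_ (b := 1) fun y => ?_
  · exact (H.meas a i j).mul (Complex.continuous_conj.measurable.comp (H.meas b k l))
  · rw [norm_mul, RCLike.norm_conj]
    have h1 := norm_entry_le (U a y) (H.unit a y) i j
    have h2 := norm_entry_le (U b y) (H.unit b y) k l
    nlinarith [norm_nonneg (U a y i j), norm_nonneg (U b y k l)]

omit [Fintype Λ] in
theorem ent_int' (H : Orth μ d U J) (a b : Λ) (i j : Fin (d a)) (k l : Fin (d b)) :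
    Integrable (fun x => U a x i j * U b x k l) μ := by
  refine integrable_of_norm_le ?_ (b := 1) fun y => ?_
  · exact (H.meas a i j).mul (H.meas b k l)
  · rw [norm_mul]
    have h1 := norm_entry_le (U a y) (H.unit a y) i j
    have h2 := norm_entry_le (U b y) (H.unit b y) k l
    nlinarith [norm_nonneg (U a y i j), norm_nonneg (U b y k l)]

omit [Fintype Λ] in
theorem int_lf_conj (H : Orth μ d U J) (z) (a b : Λ) :
    ∫ y, lf U z a y * starRingEnd ℂ (lf U z b y) ∂μ
      = ∑ p : Fin (d a) × Fin (d a), ∑ q : Fin (d b) × Fin (d b),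
        (starRingEnd ℂ (z a p.1 p.2) * z b q.1 q.2) *
          ∫ y, U a y p.1 p.2 * starRingEnd ℂ (U b y q.1 q.2) ∂μ := by
  have h1 : ∀ y, lf U z a y * starRingEnd ℂ (lf U z b y)
      = ∑ p : Fin (d a) × Fin (d a), ∑ q : Fin (d b) × Fin (d b),
        (starRingEnd ℂ (z a p.1 p.2) * z b q.1 q.2) *
          (U a y p.1 p.2 * starRingEnd ℂ (U b y q.1 q.2)) := by
    intro y
    simp only [lf]
    rw [map_sum, Finset.sum_mul_sum]
    refine Finset.sum_congr rfl fun p _ => Finset.sum_congr rfl fun q _ => ?_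
    simp only [map_mul, Complex.conj_conj]
    ring
  simp_rw [h1]
  rw [integral_finsetSum]
  · refine Finset.sum_congr rfl fun p _ => ?_
    rw [integral_finsetSum]
    · refine Finset.sum_congr rfl fun q _ => ?_
      rw [integral_const_mul]
    · intro q _
      exact (ent_int H a b _ _ _ _).const_mul _
  · intro p _
    exact integrable_finsetSum _ fun q _ => (ent_int H a b _ _ _ _).const_mul _

omit [Fintype Λ] in
theorem int_lf_mul (H : Orth μ d U J) (z) (a b : Λ) :
    ∫ y, lf U z a y * lf U z b y ∂μ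
      = ∑ p : Fin (d a) × Fin (d a), ∑ q : Fin (d b) × Fin (d b),
        (starRingEnd ℂ (z a p.1 p.2) * starRingEnd ℂ (z b q.1 q.2)) *
          ∫ y, U a y p.1 p.2 * U b y q.1 q.2 ∂μ := by
  have h1 : ∀ y, lf U z a y * lf U z b y
      = ∑ p : Fin (d a) × Fin (d a), ∑ q : Fin (d b) × Fin (d b),
        (starRingEnd ℂ (z a p.1 p.2) * starRingEnd ℂ (z b q.1 q.2)) *
          (U a y p.1 p.2 * U b y q.1 q.2) := by
    intro y
    simp only [lf]
    rw [Finset.sum_mul_sum]
    refine Finset.sum_congr rfl fun p _ => Finset.sum_congr rfl fun q _ => ?_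
    ring
  simp_rw [h1]
  rw [integral_finsetSum]
  · refine Finset.sum_congr rfl fun p _ => ?_
    rw [integral_finsetSum]
    · refine Finset.sum_congr rfl fun q _ => ?_
      rw [integral_const_mul]
    · intro q _
      exact (ent_int' H a b _ _ _ _).const_mul _
  · intro p _
    exact integrable_finsetSum _ fun q _ => (ent_int' H a b _ _ _ _).const_mul _

omit [Fintype Λ] in
theorem int_lf_conj_self (H : Orth μ d U J) (z) (a : Λ) :
    ∫ y, lf U z a y * starRingEnd ℂ (lf U z a y) ∂μ = ((fr (z a) / d a : ℝ) : ℂ) := by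
  rw [int_lf_conj H]
  simp_rw [H.orth]
  have h1 : ∀ p : Fin (d a) × Fin (d a), ∑ q : Fin (d a) × Fin (d a),
      (starRingEnd ℂ (z a p.1 p.2) * z a q.1 q.2) *
        (if p.1 = q.1 ∧ p.2 = q.2 then 1 / (d a : ℂ) else 0)
      = (Complex.normSq (z a p.1 p.2) : ℂ) / (d a : ℂ) := by
    intro p
    rw [Finset.sum_eq_single p]
    · rw [if_pos ⟨rfl, rfl⟩, Complex.normSq_eq_conj_mul_self]
      ring
    · intro q _ hq
      rw [if_neg, mul_zero]
      rintro ⟨h1, h2⟩
      exact hq (Prod.ext h1.symm h2.symm)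
    · intro h; exact absurd (Finset.mem_univ p) h
  simp_rw [h1]
  rw [fr]
  push_cast
  rw [Finset.sum_div]

theorem re_mul_re (F G : ℂ) : F.re * G.re = (F * starRingEnd ℂ G + F * G).re / 2 := by
  simp only [Complex.add_re, Complex.mul_re, Complex.conj_re, Complex.conj_im]
  ring

omit [Fintype Λ] in
theorem lf_int (H : Orth μ d U J) (z) (a b : Λ) :
    Integrable (fun y => lf U z a y * starRingEnd ℂ (lf U z b y)) μ := by
  refine integrable_of_norm_le ?_ (b := (∑ p : Fin (d a) × Fin (d a), ‖z a p.1 p.2‖)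
    * (∑ p : Fin (d b) × Fin (d b), ‖z b p.1 p.2‖)) fun y => ?_
  · exact (lf_meas H z a).mul (Complex.continuous_conj.measurable.comp (lf_meas H z b))
  · rw [norm_mul, RCLike.norm_conj]
    exact mul_le_mul (lf_bound H z a y) (lf_bound H z b y) (norm_nonneg _)
      (Finset.sum_nonneg fun _ _ => norm_nonneg _)

omit [Fintype Λ] in
theorem lf_int' (H : Orth μ d U J) (z) (a b : Λ) :
    Integrable (fun y => lf U z a y * lf U z b y) μ := by
  refine integrable_of_norm_le ?_ (b := (∑ p : Fin (d a) × Fin (d a), ‖z a p.1 p.2‖)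
    * (∑ p : Fin (d b) × Fin (d b), ‖z b p.1 p.2‖)) fun y => ?_
  · exact (lf_meas H z a).mul (lf_meas H z b)
  · rw [norm_mul]
    exact mul_le_mul (lf_bound H z a y) (lf_bound H z b y) (norm_nonneg _)
      (Finset.sum_nonneg fun _ _ => norm_nonneg _)

omit [Fintype Λ] in
theorem int_re_re (H : Orth μ d U J) (z) (a b : Λ) :
    ∫ y, (lf U z a y).re * (lf U z b y).re ∂μ
      = ((∫ y, lf U z a y * starRingEnd ℂ (lf U z b y) ∂μ)
        + ∫ y, lf U z a y * lf U z b y ∂μ).re / 2 := by
  simp_rw [re_mul_re]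
  rw [integral_div, ← integral_add (lf_int H z a b) (lf_int' H z a b)]
  congr 1
  have h := integral_re (f := fun y => lf U z a y * starRingEnd ℂ (lf U z b y)
    + lf U z a y * lf U z b y) (μ := μ) ((lf_int H z a b).add (lf_int' H z a b))
  simpa using h

omit [Fintype Λ] in
theorem int_re_re_of_ne (H : Orth μ d U J) (z) (a b : Λ) (hab : a ≠ b) :
    ∫ y, (lf U z a y).re * (lf U z b y).re ∂μ = 0 := by
  rw [int_re_re H, int_lf_conj H, int_lf_mul H]
  simp_rw [H.orth' a b hab, H.orth'' a b hab]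
  simp

omit [Fintype Λ] in
theorem int_re_sq_none (H : Orth μ d U J) (z) (a : Λ) (ha : J a = none) :
    ∫ y, (lf U z a y).re * (lf U z a y).re ∂μ = fr (z a) / d a / 2 := by
  rw [int_re_re H, int_lf_conj_self H, int_lf_mul H]
  simp_rw [H.cplx a ha]
  simp

omit [Fintype Λ] in
theorem int_re_sq_le (H : Orth μ d U J) (z) (a : Λ) :
    ∫ y, (lf U z a y).re * (lf U z a y).re ∂μ ≤ fr (z a) / d a := by
  have h1 : ∀ y, (lf U z a y).re * (lf U z a y).re
      ≤ (lf U z a y * starRingEnd ℂ (lf U z a y)).re := by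
    intro y
    simp only [Complex.mul_re, Complex.conj_re, Complex.conj_im]
    nlinarith [mul_self_nonneg (lf U z a y).im]
  have h2 : ∫ y, (lf U z a y * starRingEnd ℂ (lf U z a y)).re ∂μ = fr (z a) / d a := by
    have h := integral_re (f := fun y => lf U z a y * starRingEnd ℂ (lf U z a y)) (μ := μ)
      (lf_int H z a a)
    rw [int_lf_conj_self H] at h
    simpa using h
  rw [← h2]
  refine integral_mono_of_nonneg (Filter.Eventually.of_forall fun y => mul_self_nonneg _) ?_
    (Filter.Eventually.of_forall h1)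
  exact (lf_int H z a a).re

/-- normalization constant of the noise -/
noncomputable def cfac {e : ℕ} (J : Option (Matrix (Fin e) (Fin e) ℂ)) : ℝ :=
  match J with
  | none => 1
  | some _ => √2

theorem cfac_sq {e : ℕ} (J : Option (Matrix (Fin e) (Fin e) ℂ)) :
    cfac J ^ 2 = if J = none then 1 else 2 := by
  cases J <;> simp [cfac]

theorem cfac_pos {e : ℕ} (J : Option (Matrix (Fin e) (Fin e) ℂ)) : 0 < cfac J := by
  cases J <;> simp [cfac]

theorem covariance_bound (H : Orth μ d U J) (z : (a : Λ) → Matrix (Fin (d a)) (Fin (d a)) ℂ) :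
    ∫ y, (∑ a, √(2 * d a) / cfac (J a) * (lf U z a y).re) ^ 2 ∂μ ≤ ∑ a, fr (z a) := by
  classical
  set κ : Λ → ℝ := fun a => √(2 * d a) / cfac (J a) with hκ
  have hre : ∀ a b, Integrable (fun y => (lf U z a y).re * (lf U z b y).re) μ := by
    intro a b
    have h1 := ((lf_int H z a b).add (lf_int' H z a b)).re
    have h2 := h1.div_const 2
    refine h2.congr (Filter.Eventually.of_forall fun y => ?_)
    simp only [re_mul_re (lf U z a y) (lf U z b y)]
    simp
  have h1 : ∀ y, (∑ a, κ a * (lf U z a y).re) ^ 2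
      = ∑ a, ∑ b, κ a * κ b * ((lf U z a y).re * (lf U z b y).re) := by
    intro y
    rw [sq, Finset.sum_mul_sum]
    refine Finset.sum_congr rfl fun a _ => Finset.sum_congr rfl fun b _ => ?_
    ring
  have h2 : ∫ y, (∑ a, κ a * (lf U z a y).re) ^ 2 ∂μ
      = ∑ a, ∑ b, κ a * κ b * ∫ y, ((lf U z a y).re * (lf U z b y).re) ∂μ := by
    simp_rw [h1]
    rw [integral_finsetSum]
    · refine Finset.sum_congr rfl fun a _ => ?_
      rw [integral_finsetSum]
      · refine Finset.sum_congr rfl fun b _ => ?_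
        rw [integral_const_mul]
      · intro b _
        exact (hre a b).const_mul _
    · intro a _
      exact integrable_finsetSum _ fun b _ => (hre a b).const_mul _
  rw [h2]
  refine Finset.sum_le_sum fun a _ => ?_
  rw [Finset.sum_eq_single a]
  · have hd : (0 : ℝ) < d a := by exact_mod_cast H.pos a
    have hk : κ a * κ a = 2 * d a / cfac (J a) ^ 2 := by
      rw [← sq, hκ]
      simp only []
      rw [div_pow, Real.sq_sqrt (by positivity)]
    have hfr : 0 ≤ fr (z a) := Finset.sum_nonneg fun p _ => Complex.normSq_nonneg _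
    rw [hk, cfac_sq]
    split_ifs with hJ
    · rw [int_re_sq_none H z a hJ]
      apply le_of_eq
      field_simp
    · have h3 := int_re_sq_le H z a
      calc 2 * (d a : ℝ) / 2 * ∫ y, (lf U z a y).re * (lf U z a y).re ∂μ
          ≤ 2 * (d a : ℝ) / 2 * (fr (z a) / d a) := by gcongr
        _ = fr (z a) := by field_simp
  · intro b _ hb
    rw [int_re_re_of_ne H z a b (Ne.symm hb), mul_zero]
  · intro h; exact absurd (Finset.mem_univ a) h

end cov

end Pool.Agent.H92.MF
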