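import Mathlib
import Pool.Agent.H92.MF.Cov

/-!
The linear-degree bound for general multi-frequency models satisfying the orthogonality relations.
-/

open MeasureTheory ProbabilityTheory Matrix

namespace Pool.Agent.H92.MF

section parts

theorem part_mul_sum (z z' : ℂ) : part false z * part false z' + part true z * part true z'
    = (z * starRingEnd ℂ z').re := by
  simp [part, Complex.mul_re]

theorem sum_bool_part (z z' : ℂ) : ∑ b : Bool, part b z * part b z' = (z * starRingEnd ℂ z').re := by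
  rw [Fintype.sum_bool, add_comm, part_mul_sum]

theorem abs_part_le (b : Bool) (z : ℂ) : |part b z| ≤ ‖z‖ := by
  cases b
  · exact Complex.abs_re_le_norm z
  · exact Complex.abs_im_le_norm z

theorem measurable_part (b : Bool) : Measurable (part b) := by
  cases b
  · exact Complex.measurable_re
  · exact Complex.measurable_im

theorem part_sum {ι : Type*} (s : Finset ι) (b : Bool) (f : ι → ℂ) :
    part b (∑ i ∈ s, f i) = ∑ i ∈ s, part b (f i) := by
  cases b
  · simp [part]
  · simp [part]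

theorem sum_bool_part_sq (z : ℂ) : ∑ b : Bool, part b z ^ 2 = Complex.normSq z := by
  rw [Fintype.sum_bool]
  simp [part, Complex.normSq_apply]
  ring

end parts

section gram

variable {n e : ℕ}

/-- stacking blocks -/
def stack (V : Fin n → Matrix (Fin e) (Fin e) ℂ) : Matrix (Fin n × Fin e) (Fin e) ℂ :=
  fun p l => V p.1 p.2 l

theorem gram_identity (V V' : Fin n → Matrix (Fin e) (Fin e) ℂ) :
    ∑ p : Fin n × Fin e, ∑ q : Fin n × Fin e,
      ((V p.1 * (V q.1)ᴴ) p.2 q.2 * starRingEnd ℂ ((V' p.1 * (V' q.1)ᴴ) p.2 q.2)).re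
      = ∑ k, ∑ l, Complex.normSq ((∑ j, (V j)ᴴ * V' j) k l) := by
  set X := stack V with hX
  set X' := stack V' with hX'
  have hS : ∀ (V : Fin n → Matrix (Fin e) (Fin e) ℂ) (p q : Fin n × Fin e),
      (V p.1 * (V q.1)ᴴ) p.2 q.2 = (stack V * (stack V)ᴴ) p q := by
    intro V p q
    rw [Matrix.mul_apply, Matrix.mul_apply]
    rfl
  have hM : ∑ j, (V j)ᴴ * V' j = Xᴴ * X' := by
    ext k l
    rw [Matrix.sum_apply, Matrix.mul_apply, Fintype.sum_prod_type]
    refine Finset.sum_congr rfl fun j _ => ?_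
    rw [Matrix.mul_apply]
    rfl
  have h1 : ∑ p : Fin n × Fin e, ∑ q : Fin n × Fin e,
      ((V p.1 * (V q.1)ᴴ) p.2 q.2 * starRingEnd ℂ ((V' p.1 * (V' q.1)ᴴ) p.2 q.2))
      = Matrix.trace ((X * Xᴴ) * (X' * X'ᴴ)ᴴ) := by
    rw [Matrix.trace]
    refine Finset.sum_congr rfl fun p _ => ?_
    rw [Matrix.diag_apply, Matrix.mul_apply]
    refine Finset.sum_congr rfl fun q _ => ?_
    rw [hS V, hS V', Matrix.conjTranspose_apply]
    rfl
  have h2 : Matrix.trace ((X * Xᴴ) * (X' * X'ᴴ)ᴴ) = Matrix.trace ((Xᴴ * X') * (Xᴴ * X')ᴴ) := by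
    rw [Matrix.conjTranspose_mul, Matrix.conjTranspose_conjTranspose, Matrix.conjTranspose_mul,
      Matrix.conjTranspose_conjTranspose, Matrix.mul_assoc, Matrix.trace_mul_comm X]
    simp only [Matrix.mul_assoc]
  have h3 : Matrix.trace ((Xᴴ * X') * (Xᴴ * X')ᴴ)
      = ((∑ k, ∑ l, Complex.normSq ((∑ j, (V j)ᴴ * V' j) k l) : ℝ) : ℂ) := by
    rw [hM, Matrix.trace]
    push_cast
    refine Finset.sum_congr rfl fun k _ => ?_
    rw [Matrix.diag_apply, Matrix.mul_apply]
    refine Finset.sum_congr rfl fun l _ => ?_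
    rw [Matrix.conjTranspose_apply, Complex.normSq_eq_conj_mul_self, mul_comm]
    rfl
  rw [h2, h3] at h1
  have h4 := congrArg Complex.re h1
  rw [Complex.ofReal_re, Complex.re_sum] at h4
  rw [← h4]
  refine Finset.sum_congr rfl fun p _ => ?_
  rw [Complex.re_sum]

end gram

theorem lf_aux {e : ℕ} (V Z W : Matrix (Fin e) (Fin e) ℂ) :
    ∑ k, ∑ l, starRingEnd ℂ (Z k l) * (Vᴴ * W) k l
      = ∑ p : Fin e × Fin e, starRingEnd ℂ ((V * Z) p.1 p.2) * W p.1 p.2 := by
  rw [Fintype.sum_prod_type]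
  have h3 : ∀ k l, starRingEnd ℂ (Z k l) * (Vᴴ * W) k l
      = ∑ m, starRingEnd ℂ (Z k l) * starRingEnd ℂ (V m k) * W m l := by
    intro k l
    rw [Matrix.mul_apply, Finset.mul_sum]
    refine Finset.sum_congr rfl fun m _ => ?_
    rw [Matrix.conjTranspose_apply, mul_assoc]
    rfl
  have h4 : ∀ m l, starRingEnd ℂ ((V * Z) m l) * W m l
      = ∑ k, starRingEnd ℂ (Z k l) * starRingEnd ℂ (V m k) * W m l := by
    intro m l
    rw [Matrix.mul_apply, map_sum, Finset.sum_mul]
    refine Finset.sum_congr rfl fun k _ => ?_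
    rw [map_mul]
    ring
  simp only [h3, h4]
  calc ∑ k, ∑ l, ∑ m, starRingEnd ℂ (Z k l) * starRingEnd ℂ (V m k) * W m l
      = ∑ k, ∑ m, ∑ l, starRingEnd ℂ (Z k l) * starRingEnd ℂ (V m k) * W m l := by
        refine Finset.sum_congr rfl fun k _ => ?_
        exact Finset.sum_comm
    _ = ∑ m, ∑ k, ∑ l, starRingEnd ℂ (Z k l) * starRingEnd ℂ (V m k) * W m l :=
        Finset.sum_comm
    _ = ∑ m, ∑ l, ∑ k, starRingEnd ℂ (Z k l) * starRingEnd ℂ (V m k) * W m l := by
        refine Finset.sum_congr rfl fun m _ => ?_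
        exact Finset.sum_comm

section main

variable {Ω : Type} [MeasurableSpace Ω] {μ : Measure Ω} [IsProbabilityMeasure μ] {Λ : Type}
  [Fintype Λ] {d : Λ → ℕ} {U : (a : Λ) → Ω → Matrix (Fin (d a)) (Fin (d a)) ℂ}
  {J : (a : Λ) → Option (Matrix (Fin (d a)) (Fin (d a)) ℂ)}

/-- index set of the overlap vector -/
abbrev KIdx {Λ : Type} (d : Λ → ℕ) : Type := Σ a : Λ, Fin (d a) × Fin (d a) × Bool

/-- overlap vector -/
noncomputable def xi (U : (a : Λ) → Ω → Matrix (Fin (d a)) (Fin (d a)) ℂ)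
    (J : (a : Λ) → Option (Matrix (Fin (d a)) (Fin (d a)) ℂ)) (x y : Ω) (κ : KIdx d) : ℝ :=
  √(2 * d κ.1) / cfac (J κ.1) * part κ.2.2.2 (((U κ.1 x)ᴴ * U κ.1 y) κ.2.1 κ.2.2.1)

omit [MeasurableSpace Ω] [IsProbabilityMeasure μ] in
theorem xi_inner (x y : Ω) (u : KIdx d → ℝ) :
    ∑ κ, u κ * xi U J x y κ
      = ∑ a, √(2 * d a) / cfac (J a) *
        (lf U (fun a => U a x * Matrix.of fun k l => (⟨u ⟨a, k, l, false⟩, u ⟨a, k, l, true⟩⟩ : ℂ)) a y).re := by
  rw [Fintype.sum_sigma]
  refine Finset.sum_congr rfl fun a _ => ?_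
  have h1 : ∀ k l : Fin (d a), ∑ b : Bool, u ⟨a, k, l, b⟩ * part b (((U a x)ᴴ * U a y) k l)
      = (starRingEnd ℂ (⟨u ⟨a, k, l, false⟩, u ⟨a, k, l, true⟩⟩ : ℂ) * ((U a x)ᴴ * U a y) k l).re := by
    intro k l
    rw [Fintype.sum_bool]
    simp [part, Complex.mul_re]
    ring
  set Z : Matrix (Fin (d a)) (Fin (d a)) ℂ :=
    Matrix.of fun k l => (⟨u ⟨a, k, l, false⟩, u ⟨a, k, l, true⟩⟩ : ℂ) with hZ
  have h2 : ∑ κ : Fin (d a) × Fin (d a) × Bool, u ⟨a, κ⟩ * xi U J x y ⟨a, κ⟩
      = √(2 * d a) / cfac (J a) * (∑ k, ∑ l, starRingEnd ℂ (Z k l) * ((U a x)ᴴ * U a y) k l).re := by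
    rw [Fintype.sum_prod_type, Complex.re_sum, Finset.mul_sum]
    refine Finset.sum_congr rfl fun k _ => ?_
    rw [Fintype.sum_prod_type, Complex.re_sum, Finset.mul_sum]
    refine Finset.sum_congr rfl fun l _ => ?_
    rw [hZ, Matrix.of_apply, ← h1, Finset.mul_sum]
    refine Finset.sum_congr rfl fun b _ => ?_
    simp only [xi]
    ring
  rw [h2, lf_aux]
  rfl

omit [MeasurableSpace Ω] [IsProbabilityMeasure μ] in
theorem fr_eq {e : ℕ} (Z : Matrix (Fin e) (Fin e) ℂ) :
    fr Z = ∑ k, ∑ l, Complex.normSq (Z k l) := by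
  rw [fr, Fintype.sum_prod_type]

theorem xi_cov (H : Orth μ d U J) (x : Ω) (u : KIdx d → ℝ) :
    ∫ y, (∑ κ, u κ * xi U J x y κ) ^ 2 ∂μ ≤ ∑ κ, u κ ^ 2 := by
  simp_rw [xi_inner]
  refine (covariance_bound H _).trans (le_of_eq ?_)
  rw [Fintype.sum_sigma]
  refine Finset.sum_congr rfl fun a _ => ?_
  rw [fr_eq, sum_normSq_mul _ _ (H.unit a x), Fintype.sum_prod_type]
  refine Finset.sum_congr rfl fun k _ => ?_
  rw [Fintype.sum_prod_type]
  refine Finset.sum_congr rfl fun l _ => ?_
  rw [Fintype.sum_bool, Matrix.of_apply, Complex.normSq_apply]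
  ring

omit [IsProbabilityMeasure μ] [Fintype Λ] in
theorem xi_meas (H : Orth μ d U J) (x : Ω) (κ : KIdx d) : Measurable fun y => xi U J x y κ := by
  refine Measurable.const_mul ?_ _
  refine (measurable_part _).comp ?_
  simp only [Matrix.mul_apply]
  exact Finset.measurable_sum _ fun m _ => (H.meas _ _ _).const_mul _

omit [Fintype Λ] in
theorem xi_mean (H : Orth μ d U J) (x : Ω) (κ : KIdx d) : ∫ y, xi U J x y κ ∂μ = 0 := by
  simp only [xi]
  rw [integral_const_mul]
  have hi : ∀ m, Integrable (fun y => U κ.1 y m κ.2.2.1) μ := fun m =>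
    integrable_of_norm_le (H.meas _ _ _) (b := 1) fun y => norm_entry_le _ (H.unit _ y) _ _
  have hi2 : Integrable (fun y => ((U κ.1 x)ᴴ * U κ.1 y) κ.2.1 κ.2.2.1) μ := by
    simp only [Matrix.mul_apply]
    exact integrable_finsetSum _ fun m _ => (hi m).const_mul _
  have h1 : ∫ y, ((U κ.1 x)ᴴ * U κ.1 y) κ.2.1 κ.2.2.1 ∂μ = 0 := by
    simp only [Matrix.mul_apply]
    rw [integral_finsetSum _ fun m _ => (hi m).const_mul _]
    refine Finset.sum_eq_zero fun m _ => ?_
    rw [integral_const_mul, H.mean, mul_zero]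
  have h2 : ∀ b, ∫ y, part b (((U κ.1 x)ᴴ * U κ.1 y) κ.2.1 κ.2.2.1) ∂μ = 0 := by
    intro b
    cases b
    · have h := integral_re hi2
      rw [h1] at h
      simpa [part] using h
    · have h := integral_im hi2
      rw [h1] at h
      simpa [part] using h
  rw [h2, mul_zero]

omit [IsProbabilityMeasure μ] in
theorem xi_bound (H : Orth μ d U J) (x y : Ω) :
    ∑ κ, xi U J x y κ ^ 2 ≤ (√(∑ a, 2 * (d a : ℝ) ^ 2)) ^ 2 := by
  rw [Real.sq_sqrt (Finset.sum_nonneg fun a _ => by positivity), Fintype.sum_sigma]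
  refine Finset.sum_le_sum fun a _ => ?_
  have h1 : ∑ κ : Fin (d a) × Fin (d a) × Bool, xi U J x y ⟨a, κ⟩ ^ 2
      = (√(2 * d a) / cfac (J a)) ^ 2 * ∑ k, ∑ l, Complex.normSq (((U a x)ᴴ * U a y) k l) := by
    rw [Fintype.sum_prod_type, Finset.mul_sum]
    refine Finset.sum_congr rfl fun k _ => ?_
    rw [Fintype.sum_prod_type, Finset.mul_sum]
    refine Finset.sum_congr rfl fun l _ => ?_
    rw [← sum_bool_part_sq, Finset.mul_sum]
    refine Finset.sum_congr rfl fun b _ => ?_
    simp only [xi]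
    ring
  have hU : (U a x) * (U a x)ᴴ = 1 := mul_eq_one_comm.1 (H.unit a x)
  have h2 : ∑ k, ∑ l, Complex.normSq (((U a x)ᴴ * U a y) k l) = d a := by
    apply sum_normSq_of_unit
    rw [Matrix.conjTranspose_mul, Matrix.conjTranspose_conjTranspose, Matrix.mul_assoc,
      ← Matrix.mul_assoc (U a x), hU, Matrix.one_mul, H.unit]
  rw [h1, h2, div_pow, Real.sq_sqrt (by positivity), cfac_sq]
  have hd : (0 : ℝ) ≤ d a := by positivity
  split_ifs
  · apply le_of_eq; ring
  · nlinarith [sq_nonneg (d a : ℝ)]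

/-- the signal in the Gaussian coordinates -/
noncomputable def sg (U : (a : Λ) → Ω → Matrix (Fin (d a)) (Fin (d a)) ℂ)
    (J : (a : Λ) → Option (Matrix (Fin (d a)) (Fin (d a)) ℂ)) (lam : ℝ) {n : ℕ} (g : Fin n → Ω) :
    Idx n d → ℝ :=
  fun v => √((n : ℝ) * d v.1) * (lam / n) / cfac (J v.1) * part v.2.2.2 (signal U g v.1 v.2.1 v.2.2.1)

omit [MeasurableSpace Ω] [IsProbabilityMeasure μ] [Fintype Λ] in
theorem ginibre_sg (lam : ℝ) {n : ℕ} (g : Fin n → Ω) (a : Λ) :
    ginibre (sg U J lam g) a = (√((n : ℝ) * d a) * (lam / n) / cfac (J a)) • signal U g a := by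
  ext p q
  apply Complex.ext <;> simp [ginibre, sg, part]

omit [IsProbabilityMeasure μ] [Fintype Λ] in
theorem noise_signal (H : Orth μ d U J) {n : ℕ} (g : Fin n → Ω) (a : Λ) :
    noise (J a) (signal U g a) = cfac (J a) • signal U g a := by
  have hherm : (signal U g a)ᴴ = signal U g a := by
    ext p q
    rw [Matrix.conjTranspose_apply]
    change star ((U a (g q.1) * (U a (g p.1))ᴴ) q.2 p.2) = (U a (g p.1) * (U a (g q.1))ᴴ) p.2 q.2
    rw [← Matrix.conjTranspose_apply, Matrix.conjTranspose_mul, Matrix.conjTranspose_conjTranspose]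
  have H' := H.self a
  revert H'
  generalize J a = Ja
  intro H'
  cases Ja with
  | none =>
    simp only [noise, cfac, one_smul, hherm]
    rw [← two_smul ℝ (signal U g a), smul_smul]
    norm_num
  | some V =>
    obtain ⟨hV, hUV⟩ := H' V rfl
    have htau : tau V (signal U g a) = signal U g a := by
      ext p q
      have h1 : (Matrix.of fun k l => starRingEnd ℂ (signal U g a (p.1, k) (q.1, l)))
          = (U a (g p.1)).map (starRingEnd ℂ) * ((U a (g q.1)).map (starRingEnd ℂ))ᴴ := by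
        ext k l
        rw [Matrix.of_apply]
        change starRingEnd ℂ ((U a (g p.1) * (U a (g q.1))ᴴ) k l) = _
        rw [Matrix.mul_apply, Matrix.mul_apply, map_sum]
        refine Finset.sum_congr rfl fun m _ => ?_
        rw [map_mul]
        simp [Matrix.conjTranspose_apply]
      have h2 : tau V (signal U g a) p q
          = (V * ((U a (g p.1)).map (starRingEnd ℂ) * ((U a (g q.1)).map (starRingEnd ℂ))ᴴ) * Vᴴ) p.2 q.2 := by
        rw [← h1]; rfl
      rw [h2]
      have h3 : V * ((U a (g p.1)).map (starRingEnd ℂ) * ((U a (g q.1)).map (starRingEnd ℂ))ᴴ) * Vᴴ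
          = U a (g p.1) * (U a (g q.1))ᴴ := by
        calc V * ((U a (g p.1)).map (starRingEnd ℂ) * ((U a (g q.1)).map (starRingEnd ℂ))ᴴ) * Vᴴ
            = (V * (U a (g p.1)).map (starRingEnd ℂ)) * (V * (U a (g q.1)).map (starRingEnd ℂ))ᴴ := by
              rw [Matrix.conjTranspose_mul]
              simp only [Matrix.mul_assoc]
          _ = (U a (g p.1) * V) * (U a (g q.1) * V)ᴴ := by rw [← hUV, ← hUV]
          _ = U a (g p.1) * (V * Vᴴ) * (U a (g q.1))ᴴ := by
              rw [Matrix.conjTranspose_mul]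
              simp only [Matrix.mul_assoc]
          _ = U a (g p.1) * (U a (g q.1))ᴴ := by rw [hV, Matrix.mul_one]
      rw [h3]
      rfl
    simp only [noise, cfac, htau, hherm]
    have h4 : signal U g a + signal U g a + signal U g a + signal U g a = (4 : ℝ) • signal U g a := by
      have : (4 : ℝ) = 1 + 1 + 1 + 1 := by norm_num
      rw [this]
      simp only [add_smul, one_smul]
    rw [h4, smul_smul]
    congr 1
    ring

omit [IsProbabilityMeasure μ] [Fintype Λ] in
theorem coords_obs (H : Orth μ d U J) (lam : ℝ) {n : ℕ} (hn : 1 ≤ n) (g : Fin n → Ω)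
    (w : Idx n d → ℝ) :
    coords (obs U J lam g w) = obsLin J (sg U J lam g + w) := by
  rw [map_add]
  change coords (fun a => (lam / n : ℝ) • signal U g a + nullObs J w a)
    = coords (nullObs J (sg U J lam g)) + coords (nullObs J w)
  rw [← coords_add]
  congr 1
  funext a
  congr 1
  simp only [nullObs]
  rw [ginibre_sg, noise_smul, noise_signal H, smul_smul, smul_smul]
  congr 1
  have h1 : 0 < cfac (J a) := cfac_pos _
  have hd : (0 : ℝ) < d a := by exact_mod_cast H.pos a
  have hn0 : (0 : ℝ) < n := by exact_mod_cast hn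
  have h2 : √((n : ℝ) * d a) ≠ 0 := (Real.sqrt_pos.2 (by positivity)).ne'
  field_simp

omit [IsProbabilityMeasure μ] [Fintype Λ] in
theorem signal_meas (H : Orth μ d U J) {n : ℕ} (a : Λ) (p q : Fin n × Fin (d a)) :
    Measurable fun g : Fin n → Ω => signal U g a p q := by
  simp only [signal, Matrix.mul_apply]
  refine Finset.measurable_sum _ fun m _ => ?_
  refine ((H.meas a _ _).comp (measurable_pi_apply p.1)).mul ?_
  exact Complex.continuous_conj.measurable.comp ((H.meas a _ _).comp (measurable_pi_apply q.1))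

omit [IsProbabilityMeasure μ] [Fintype Λ] in
theorem signal_bound (H : Orth μ d U J) {n : ℕ} (g : Fin n → Ω) (a : Λ) (p q : Fin n × Fin (d a)) :
    ‖signal U g a p q‖ ≤ d a := by
  simp only [signal, Matrix.mul_apply]
  refine (norm_sum_le _ _).trans ?_
  calc ∑ m, ‖U a (g p.1) p.2 m * (U a (g q.1))ᴴ m q.2‖ ≤ ∑ _m : Fin (d a), (1 : ℝ) := by
        refine Finset.sum_le_sum fun m _ => ?_
        rw [norm_mul, Matrix.conjTranspose_apply, norm_star]
        have h1 := norm_entry_le (U a (g p.1)) (H.unit a _) p.2 m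
        have h2 := norm_entry_le (U a (g q.1)) (H.unit a _) q.2 m
        nlinarith [norm_nonneg (U a (g p.1) p.2 m), norm_nonneg (U a (g q.1) q.2 m)]
    _ = d a := by simp

omit [IsProbabilityMeasure μ] in
theorem sg_gram (H : Orth μ d U J) (lam : ℝ) {n : ℕ} (hn : 1 ≤ n) (g g' : Fin n → Ω) :
    ∑ i, sg U J lam g i * sg U J lam g' i
      = lam ^ 2 / (2 * n) * ∑ κ, (∑ j, xi U J (g j) (g' j) κ) ^ 2 := by
  have hn0 : (0 : ℝ) < n := by exact_mod_cast hn
  rw [Fintype.sum_sigma, Fintype.sum_sigma, Finset.mul_sum]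
  refine Finset.sum_congr rfl fun a _ => ?_
  have hd : (0 : ℝ) < d a := by exact_mod_cast H.pos a
  have hc : 0 < cfac (J a) := cfac_pos _
  have h1 : ∑ i : (Fin n × Fin (d a)) × (Fin n × Fin (d a)) × Bool,
      sg U J lam g ⟨a, i⟩ * sg U J lam g' ⟨a, i⟩
      = (√((n : ℝ) * d a) * (lam / n) / cfac (J a)) ^ 2 *
        ∑ p : Fin n × Fin (d a), ∑ q : Fin n × Fin (d a),
          (signal U g a p q * starRingEnd ℂ (signal U g' a p q)).re := by
    rw [Fintype.sum_prod_type, Finset.mul_sum]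
    refine Finset.sum_congr rfl fun p _ => ?_
    rw [Fintype.sum_prod_type, Finset.mul_sum]
    refine Finset.sum_congr rfl fun q _ => ?_
    rw [← sum_bool_part, Finset.mul_sum]
    refine Finset.sum_congr rfl fun b _ => ?_
    simp only [sg]
    ring
  have h2 : ∑ κ : Fin (d a) × Fin (d a) × Bool, (∑ j, xi U J (g j) (g' j) ⟨a, κ⟩) ^ 2
      = (√(2 * d a) / cfac (J a)) ^ 2 *
        ∑ k, ∑ l, Complex.normSq ((∑ j, (U a (g j))ᴴ * U a (g' j)) k l) := by
    rw [Fintype.sum_prod_type, Finset.mul_sum]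
    refine Finset.sum_congr rfl fun k _ => ?_
    rw [Fintype.sum_prod_type, Finset.mul_sum]
    refine Finset.sum_congr rfl fun l _ => ?_
    rw [← sum_bool_part_sq, Finset.mul_sum]
    refine Finset.sum_congr rfl fun b _ => ?_
    rw [← mul_pow, Matrix.sum_apply, part_sum, Finset.mul_sum]
    rfl
  have h3 := gram_identity (fun j => U a (g j)) (fun j => U a (g' j))
  have h4 : ∑ p : Fin n × Fin (d a), ∑ q : Fin n × Fin (d a),
          (signal U g a p q * starRingEnd ℂ (signal U g' a p q)).re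
      = ∑ k, ∑ l, Complex.normSq ((∑ j, (U a (g j))ᴴ * U a (g' j)) k l) := h3
  rw [h1, h2, h4, ← mul_assoc]
  congr 1
  rw [div_pow, mul_pow, Real.sq_sqrt (by positivity), div_pow, div_pow, Real.sq_sqrt (by positivity)]
  field_simp

/-- **Main theorem for general models.** -/
theorem linear_degree (Λ : Type) [Fintype Λ] (d : Λ → ℕ) (lam : ℝ) (hl0 : 0 ≤ lam) (hl1 : lam < 1) :
    ∃ δ : ℝ, 0 < δ ∧ ∃ C : ℝ, 0 ≤ C ∧ ∀ (Ω : Type) [MeasurableSpace Ω] (μ : Measure Ω)
      [IsProbabilityMeasure μ] (U : (a : Λ) → Ω → Matrix (Fin (d a)) (Fin (d a)) ℂ)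
      (J : (a : Λ) → Option (Matrix (Fin (d a)) (Fin (d a)) ℂ)), Orth μ d U J →
      ∀ n D : ℕ, 1 ≤ n → (D : ℝ) ≤ δ * n → ∀ f : MvPolynomial (Idx n d) ℝ, f.totalDegree ≤ D →
        (plantedE μ U J lam f - nullE J f) ^ 2 ≤ C * nullVar J f := by
  obtain ⟨δ, hδ, C, hC, Hmain⟩ := additive_model_bound.{0, 0} (KIdx d) lam
    (√(∑ a, 2 * (d a : ℝ) ^ 2)) hl0 hl1
  refine ⟨δ, hδ, C, hC, ?_⟩
  intro Ω _ μ _ U J H n D hn hD f hf
  -- centre the statistic
  set c : ℝ := nullE J f with hc
  set f' : MvPolynomial (Idx n d) ℝ := f - MvPolynomial.C c with hf'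
  have hdeg : f'.totalDegree ≤ D := (MvPolynomial.totalDegree_sub_C_le f c).trans hf
  obtain ⟨F, hF1, hF2⟩ := exists_comp_linear (obsLin J) f'
  have hmeas : ∀ i, Measurable fun g : Fin n → Ω => sg U J lam g i := by
    intro i
    exact ((measurable_part _).comp (signal_meas H _ _ _)).const_mul _
  have hbd : ∀ (g : Fin n → Ω) i, |sg U J lam g i|
      ≤ ∑ a, |√((n : ℝ) * d a) * (lam / n) / cfac (J a)| * d a := by
    intro g i
    refine le_trans ?_ (Finset.single_le_sum (f := fun a =>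
      |√((n : ℝ) * d a) * (lam / n) / cfac (J a)| * (d a : ℝ)) (fun a _ => by positivity)
      (Finset.mem_univ i.1))
    simp only [sg]
    rw [abs_mul]
    apply mul_le_mul_of_nonneg_left _ (abs_nonneg _)
    exact (abs_part_le _ _).trans (signal_bound H g _ _ _)
  have key := Hmain Ω μ n D hn hD (Idx n d) (sg U J lam) hmeas _ hbd (xi U J)
    (fun x κ => xi_meas H x κ) (fun x y => xi_bound H x y) (fun x κ => xi_mean H x κ)
    (fun x u => xi_cov H x u) (fun g g' => sg_gram H lam hn g g') F (hF1.trans hdeg)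
  have h1 : ∀ g w, MvPolynomial.eval (sg U J lam g + w) F
      = MvPolynomial.eval (coords (obs U J lam g w)) f - c := by
    intro g w
    rw [hF2, ← coords_obs H lam hn, hf', map_sub, MvPolynomial.eval_C]
  have h2 : ∀ w, MvPolynomial.eval w F = MvPolynomial.eval (coords (nullObs J w)) f - c := by
    intro w
    rw [hF2, hf', map_sub, MvPolynomial.eval_C]
    rfl
  simp_rw [h1, h2] at key
  have h3 : ∫ g, ∫ w, (MvPolynomial.eval (coords (obs U J lam g w)) f - c) ∂(gN (Idx n d))
      ∂(Measure.pi fun _ : Fin n => μ) = plantedE μ U J lam f - c := by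
    obtain ⟨F0, hF01, hF02⟩ := exists_comp_linear (obsLin J) f
    have hi : ∀ g, Integrable (fun w => MvPolynomial.eval (coords (obs U J lam g w)) f)
        (gN (Idx n d)) := by
      intro g
      have := integrable_shift F0 (sg U J lam g)
      refine this.congr (Filter.Eventually.of_forall fun w => ?_)
      simp only
      rw [hF02, ← coords_obs H lam hn]
    have h4 : ∀ g, ∫ w, (MvPolynomial.eval (coords (obs U J lam g w)) f - c) ∂(gN (Idx n d))
        = ∫ w, MvPolynomial.eval (coords (obs U J lam g w)) f ∂(gN (Idx n d)) - c := by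
      intro g
      rw [integral_sub (hi g) (integrable_const c)]
      simp
    simp_rw [h4]
    have hi2 : Integrable (fun g => ∫ w, MvPolynomial.eval (coords (obs U J lam g w)) f
        ∂(gN (Idx n d))) (Measure.pi fun _ : Fin n => μ) := by
      classical
      have h5 : ∀ g, ∫ w, MvPolynomial.eval (coords (obs U J lam g w)) f ∂(gN (Idx n d))
          = ∑ α ∈ AD (Idx n d) F0.totalDegree, EG (F0 * HH α)
            * ∏ i, (sg U J lam g i) ^ (α i) / ((α i).factorial : ℝ) := by
        intro g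
        rw [← shift_formula F0 _ le_rfl]
        congr 1
        funext w
        rw [hF02, ← coords_obs H lam hn]
      simp_rw [h5]
      refine integrable_finsetSum _ fun α _ => ?_
      refine Integrable.const_mul ?_ _
      set B := ∑ a, |√((n : ℝ) * d a) * (lam / n) / cfac (J a)| * d a with hB
      refine integrable_of_abs_le _ ?_ (b := ∏ i, B ^ (α i) / ((α i).factorial : ℝ)) fun g => ?_
      · exact Finset.measurable_prod _ fun i _ => ((hmeas i).pow_const _).div_const _
      · rw [Finset.abs_prod]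
        refine Finset.prod_le_prod (fun i _ => abs_nonneg _) fun i _ => ?_
        rw [abs_div, abs_pow, abs_of_pos (show (0 : ℝ) < ((α i).factorial : ℝ) by positivity)]
        apply div_le_div_of_nonneg_right _ (by positivity)
        exact pow_le_pow_left₀ (abs_nonneg _) (hbd g i) _
    rw [integral_sub hi2 (integrable_const c)]
    simp only [integral_const, probReal_univ, smul_eq_mul, one_mul]
    rfl
  rw [h3] at key
  exact key

end main

end Pool.Agent.H92.MF
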