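import Mathlib
import Pool.Agent.H92.MF.Thm

/-!
Schur orthogonality for irreducible unitary matrix representations.
-/

open MeasureTheory ProbabilityTheory Matrix

namespace Pool.Agent.H92.MF

variable {G : Type} [Group G]

/-- irreducibility of a matrix representation -/
def Irred {e : ℕ} (ρ : G →* Matrix (Fin e) (Fin e) ℂ) : Prop :=
  0 < e ∧ ∀ V : Submodule ℂ (Fin e → ℂ), (∀ g, ∀ v ∈ V, ρ g *ᵥ v ∈ V) → V = ⊥ ∨ V = ⊤

/-- equivalence of matrix representations -/
def Equivalent {e e' : ℕ} (ρ : G →* Matrix (Fin e) (Fin e) ℂ)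
    (σ : G →* Matrix (Fin e') (Fin e') ℂ) : Prop :=
  ∃ T : (Fin e → ℂ) ≃ₗ[ℂ] (Fin e' → ℂ), ∀ g v, T (ρ g *ᵥ v) = σ g *ᵥ T v

/-- the complex conjugate representation -/
noncomputable def conjRep {e : ℕ} (ρ : G →* Matrix (Fin e) (Fin e) ℂ) :
    G →* Matrix (Fin e) (Fin e) ℂ :=
  ((starRingEnd ℂ).mapMatrix : Matrix (Fin e) (Fin e) ℂ →+* Matrix (Fin e) (Fin e) ℂ).toMonoidHom.comp ρ

theorem conjRep_apply {e : ℕ} (ρ : G →* Matrix (Fin e) (Fin e) ℂ) (g : G) :
    conjRep ρ g = (ρ g).map (starRingEnd ℂ) := rfl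

theorem equivalent_symm {e e' : ℕ} {ρ : G →* Matrix (Fin e) (Fin e) ℂ}
    {σ : G →* Matrix (Fin e') (Fin e') ℂ} (h : Equivalent ρ σ) : Equivalent σ ρ := by
  obtain ⟨T, hT⟩ := h
  refine ⟨T.symm, fun g v => ?_⟩
  apply T.injective
  rw [hT, LinearEquiv.apply_symm_apply, LinearEquiv.apply_symm_apply]

theorem schur_zero {e e' : ℕ} {ρ : G →* Matrix (Fin e) (Fin e) ℂ}
    {σ : G →* Matrix (Fin e') (Fin e') ℂ} (hρ : Irred ρ) (hσ : Irred σ)
    (T : Matrix (Fin e) (Fin e') ℂ) (hT : ∀ g, ρ g * T = T * σ g) (hne : ¬ Equivalent ρ σ) :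
    T = 0 := by
  by_contra hT0
  have hlin0 : T.mulVecLin ≠ 0 := by
    intro h
    apply hT0
    have : Matrix.toLin' T = 0 := h
    exact (LinearEquiv.map_eq_zero_iff _).1 this
  have hk : LinearMap.ker T.mulVecLin = ⊥ := by
    rcases hσ.2 (LinearMap.ker T.mulVecLin) (by
      intro g v hv
      rw [LinearMap.mem_ker, Matrix.mulVecLin_apply] at hv ⊢
      rw [Matrix.mulVec_mulVec, ← hT g, ← Matrix.mulVec_mulVec, hv, Matrix.mulVec_zero]) with h | h
    · exact h
    · exact absurd (LinearMap.ker_eq_top.1 h) hlin0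
  have hr : LinearMap.range T.mulVecLin = ⊤ := by
    rcases hρ.2 (LinearMap.range T.mulVecLin) (by
      rintro g v ⟨u, rfl⟩
      refine ⟨σ g *ᵥ u, ?_⟩
      rw [Matrix.mulVecLin_apply, Matrix.mulVecLin_apply, Matrix.mulVec_mulVec, ← hT g,
        Matrix.mulVec_mulVec]) with h | h
    · exact absurd (LinearMap.range_eq_bot.1 h) hlin0
    · exact h
  apply hne
  apply equivalent_symm
  have hbij : Function.Bijective T.mulVecLin :=
    ⟨LinearMap.ker_eq_bot.1 hk, LinearMap.range_eq_top.1 hr⟩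
  refine ⟨LinearEquiv.ofBijective T.mulVecLin hbij, ?_⟩
  intro g v
  change T.mulVecLin (σ g *ᵥ v) = ρ g *ᵥ T.mulVecLin v
  rw [Matrix.mulVecLin_apply, Matrix.mulVecLin_apply, Matrix.mulVec_mulVec, ← hT g,
    Matrix.mulVec_mulVec]

theorem schur_scalar {e : ℕ} {ρ : G →* Matrix (Fin e) (Fin e) ℂ} (hρ : Irred ρ)
    (T : Matrix (Fin e) (Fin e) ℂ) (hT : ∀ g, ρ g * T = T * ρ g) :
    ∃ c : ℂ, T = c • (1 : Matrix (Fin e) (Fin e) ℂ) := by
  have : Nonempty (Fin e) := ⟨⟨0, hρ.1⟩⟩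
  have : Nontrivial (Fin e → ℂ) := Function.nontrivial
  obtain ⟨c, hc⟩ := Module.End.exists_eigenvalue (T.mulVecLin : Module.End ℂ (Fin e → ℂ))
  obtain ⟨v, hv⟩ := hc.exists_hasEigenvector
  refine ⟨c, ?_⟩
  set S : Matrix (Fin e) (Fin e) ℂ := T - c • 1 with hS
  have hSc : ∀ g, ρ g * S = S * ρ g := by
    intro g
    rw [hS, Matrix.mul_sub, Matrix.sub_mul, hT g]
    simp
  have hSv : S *ᵥ v = 0 := by
    have h1 := hv.apply_eq_smul
    rw [Matrix.mulVecLin_apply] at h1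
    rw [hS, Matrix.sub_mulVec, h1, Matrix.smul_mulVec, Matrix.one_mulVec, sub_self]
  rcases hρ.2 (LinearMap.ker S.mulVecLin) (by
      intro g v hv
      rw [LinearMap.mem_ker, Matrix.mulVecLin_apply] at hv ⊢
      rw [Matrix.mulVec_mulVec, ← hSc g, ← Matrix.mulVec_mulVec, hv, Matrix.mulVec_zero]) with h | h
  · exfalso
    have h2 : v ∈ LinearMap.ker S.mulVecLin := by
      rw [LinearMap.mem_ker, Matrix.mulVecLin_apply]; exact hSv
    rw [h, Submodule.mem_bot] at h2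
    exact hv.2 h2
  · have h3 : Matrix.toLin' S = 0 := LinearMap.ker_eq_top.1 h
    have h4 : S = 0 := (LinearEquiv.map_eq_zero_iff _).1 h3
    rw [hS] at h4
    exact sub_eq_zero.1 h4

theorem irred_conj {e : ℕ} {ρ : G →* Matrix (Fin e) (Fin e) ℂ} (hρ : Irred ρ) :
    Irred (conjRep ρ) := by
  refine ⟨hρ.1, fun V hV => ?_⟩
  let V' : Submodule ℂ (Fin e → ℂ) :=
    { carrier := {v | star v ∈ V}
      add_mem' := by
        intro a b ha hb
        simp only [Set.mem_ofPred_eq, star_add] at *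
        exact V.add_mem ha hb
      zero_mem' := by simp
      smul_mem' := by
        intro c v hv
        simp only [Set.mem_ofPred_eq, star_smul] at *
        exact V.smul_mem _ hv }
  have hmem : ∀ v, v ∈ V' ↔ star v ∈ V := fun v => Iff.rfl
  have hinv : ∀ g, ∀ v ∈ V', ρ g *ᵥ v ∈ V' := by
    intro g v hv
    rw [hmem] at hv ⊢
    have h1 := hV g _ hv
    have h2 : star (ρ g *ᵥ v) = conjRep ρ g *ᵥ star v := by
      funext i
      rw [conjRep_apply]
      simp [Matrix.mulVec, dotProduct]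
    rw [h2]
    exact h1
  rcases hρ.2 V' hinv with h | h
  · left
    rw [eq_bot_iff]
    intro v hv
    have h1 : star v ∈ V' := by rw [hmem, star_star]; exact hv
    rw [h, Submodule.mem_bot] at h1
    rw [Submodule.mem_bot]
    exact star_eq_zero.1 h1
  · right
    rw [eq_top_iff]
    intro v _
    have h1 : star v ∈ V' := by rw [h]; trivial
    rw [hmem, star_star] at h1
    exact h1

section average

variable [MeasurableSpace G] [MeasurableMul G] {μ : Measure G} [IsProbabilityMeasure μ]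
  [μ.IsMulLeftInvariant]

/-- the average of `ρ A σᴴ` -/
noncomputable def avg (μ : Measure G) {e e' : ℕ} (ρ : G →* Matrix (Fin e) (Fin e) ℂ)
    (σ : G →* Matrix (Fin e') (Fin e') ℂ) (A : Matrix (Fin e) (Fin e') ℂ) :
    Matrix (Fin e) (Fin e') ℂ :=
  Matrix.of fun i k => ∫ g, (ρ g * A * (σ g)ᴴ) i k ∂μ

omit [MeasurableMul G] [μ.IsMulLeftInvariant] in
theorem avg_int {e e' : ℕ} {ρ : G →* Matrix (Fin e) (Fin e) ℂ}
    {σ : G →* Matrix (Fin e') (Fin e') ℂ} (hρm : ∀ i j, Measurable fun g => ρ g i j)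
    (hσm : ∀ i j, Measurable fun g => σ g i j) (hρu : ∀ g, (ρ g)ᴴ * ρ g = 1)
    (hσu : ∀ g, (σ g)ᴴ * σ g = 1) (A : Matrix (Fin e) (Fin e') ℂ) (i k) :
    Integrable (fun g => (ρ g * A * (σ g)ᴴ) i k) μ := by
  have h1 : (fun g => (ρ g * A * (σ g)ᴴ) i k)
      = fun g => ∑ l, ∑ j, ρ g i j * A j l * starRingEnd ℂ (σ g k l) := by
    funext g
    rw [Matrix.mul_apply]
    refine Finset.sum_congr rfl fun l _ => ?_
    rw [Matrix.mul_apply, Finset.sum_mul]
    rfl
  rw [h1]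
  refine integrable_finsetSum _ fun l _ => integrable_finsetSum _ fun j _ => ?_
  refine integrable_of_norm_le ?_ (b := ‖A j l‖) fun g => ?_
  · exact ((hρm i j).mul_const _).mul (Complex.continuous_conj.measurable.comp (hσm k l))
  · rw [norm_mul, norm_mul, RCLike.norm_conj]
    have h1 := norm_entry_le (ρ g) (hρu g) i j
    have h2 := norm_entry_le (σ g) (hσu g) k l
    calc ‖ρ g i j‖ * ‖A j l‖ * ‖σ g k l‖ ≤ 1 * ‖A j l‖ * 1 := by gcongr
      _ = _ := by ring

theorem avg_intertwines {e e' : ℕ} {ρ : G →* Matrix (Fin e) (Fin e) ℂ}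
    {σ : G →* Matrix (Fin e') (Fin e') ℂ} (hρm : ∀ i j, Measurable fun g => ρ g i j)
    (hσm : ∀ i j, Measurable fun g => σ g i j) (hρu : ∀ g, (ρ g)ᴴ * ρ g = 1)
    (hσu : ∀ g, (σ g)ᴴ * σ g = 1) (A : Matrix (Fin e) (Fin e') ℂ) (h : G) :
    ρ h * avg μ ρ σ A = avg μ ρ σ A * σ h := by
  have hi := avg_int (μ := μ) hρm hσm hρu hσu A
  ext i k
  have h1 : (ρ h * avg μ ρ σ A) i k = ∫ g, (ρ h * (ρ g * A * (σ g)ᴴ)) i k ∂μ := by
    simp only [Matrix.mul_apply (M := ρ h), avg, Matrix.of_apply]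
    rw [integral_finsetSum _ fun j _ => (hi j k).const_mul _]
    refine Finset.sum_congr rfl fun j _ => ?_
    rw [integral_const_mul]
  have h2 : (avg μ ρ σ A * σ h) i k = ∫ g, ((ρ g * A * (σ g)ᴴ) * σ h) i k ∂μ := by
    simp only [Matrix.mul_apply (N := σ h), avg, Matrix.of_apply]
    rw [integral_finsetSum _ fun j _ => (hi i j).mul_const _]
    refine Finset.sum_congr rfl fun j _ => ?_
    rw [integral_mul_const]
  rw [h1, h2]
  rw [← integral_mul_left_eq_self (μ := μ) (fun g => ((ρ g * A * (σ g)ᴴ) * σ h) i k) h]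
  congr 1
  funext g
  have h3 : (σ (h * g))ᴴ * σ h = (σ g)ᴴ := by
    rw [map_mul, Matrix.conjTranspose_mul, Matrix.mul_assoc, hσu h, Matrix.mul_one]
  rw [Matrix.mul_assoc (ρ (h * g) * A), h3, map_mul]
  simp only [Matrix.mul_assoc]

omit [MeasurableMul G] [IsProbabilityMeasure μ] [μ.IsMulLeftInvariant] in
theorem avg_single {e e' : ℕ} (ρ : G →* Matrix (Fin e) (Fin e) ℂ)
    (σ : G →* Matrix (Fin e') (Fin e') ℂ) (i j : Fin e) (k l : Fin e') :
    avg μ ρ σ (Matrix.single j l 1) i k = ∫ g, ρ g i j * starRingEnd ℂ (σ g k l) ∂μ := by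
  simp only [avg, Matrix.of_apply]
  congr 1
  funext g
  rw [Matrix.mul_apply]
  rw [Finset.sum_eq_single l]
  · rw [Matrix.mul_single_apply_same, mul_one, Matrix.conjTranspose_apply]
    rfl
  · intro b _ hb
    rw [Matrix.mul_single_apply_of_ne _ _ _ _ _ hb, zero_mul]
  · intro h; exact absurd (Finset.mem_univ l) h

theorem orth_zero {e e' : ℕ} {ρ : G →* Matrix (Fin e) (Fin e) ℂ}
    {σ : G →* Matrix (Fin e') (Fin e') ℂ} (hρ : Irred ρ) (hσ : Irred σ)
    (hρm : ∀ i j, Measurable fun g => ρ g i j)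
    (hσm : ∀ i j, Measurable fun g => σ g i j) (hρu : ∀ g, (ρ g)ᴴ * ρ g = 1)
    (hσu : ∀ g, (σ g)ᴴ * σ g = 1) (hne : ¬ Equivalent ρ σ) (i j : Fin e) (k l : Fin e') :
    ∫ g, ρ g i j * starRingEnd ℂ (σ g k l) ∂μ = 0 := by
  rw [← avg_single, schur_zero hρ hσ _ (avg_intertwines hρm hσm hρu hσu _) hne]
  rfl

theorem orth_same {e : ℕ} {ρ : G →* Matrix (Fin e) (Fin e) ℂ} (hρ : Irred ρ)
    (hρm : ∀ i j, Measurable fun g => ρ g i j) (hρu : ∀ g, (ρ g)ᴴ * ρ g = 1) (i j k l : Fin e) :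
    ∫ g, ρ g i j * starRingEnd ℂ (ρ g k l) ∂μ = if i = k ∧ j = l then 1 / (e : ℂ) else 0 := by
  have he : (e : ℂ) ≠ 0 := by exact_mod_cast hρ.1.ne'
  obtain ⟨c, hc⟩ := schur_scalar hρ _ (avg_intertwines (μ := μ) hρm hρm hρu hρu (Matrix.single j l 1))
  have htr : Matrix.trace (avg μ ρ ρ (Matrix.single j l 1)) = if j = l then 1 else 0 := by
    have h1 : Matrix.trace (avg μ ρ ρ (Matrix.single j l 1))
        = ∫ g, Matrix.trace (ρ g * Matrix.single j l 1 * (ρ g)ᴴ) ∂μ := by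
      simp only [Matrix.trace, Matrix.diag_apply, avg, Matrix.of_apply]
      rw [integral_finsetSum _ fun m _ => avg_int hρm hρm hρu hρu _ m m]
    rw [h1]
    have h2 : ∀ g, Matrix.trace (ρ g * Matrix.single j l 1 * (ρ g)ᴴ)
        = Matrix.trace (Matrix.single j l (1 : ℂ)) := by
      intro g
      rw [Matrix.trace_mul_comm, ← Matrix.mul_assoc, hρu, Matrix.one_mul]
    simp_rw [h2]
    rw [integral_const, probReal_univ, one_smul]
    split_ifs with h
    · subst h; exact Matrix.trace_single_eq_same _ _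
    · exact Matrix.trace_single_eq_of_ne _ _ _ h
  rw [← avg_single, hc, Matrix.smul_apply, smul_eq_mul]
  rw [hc, Matrix.trace_smul, Matrix.trace_one, Fintype.card_fin, smul_eq_mul] at htr
  have hc2 : c = (if j = l then 1 else 0) / (e : ℂ) := by
    rw [eq_div_iff he]; exact htr
  rw [hc2, Matrix.one_apply]
  by_cases h1 : i = k <;> by_cases h2 : j = l <;> simp [h1, h2]

theorem orth_mean {e : ℕ} {ρ : G →* Matrix (Fin e) (Fin e) ℂ} (hρ : Irred ρ)
    (hρm : ∀ i j, Measurable fun g => ρ g i j) (hρu : ∀ g, (ρ g)ᴴ * ρ g = 1)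
    (hnt : ∃ g, ρ g ≠ 1) (i j : Fin e) : ∫ g, ρ g i j ∂μ = 0 := by
  have hi : ∀ i j, Integrable (fun g => ρ g i j) μ := fun i j =>
    integrable_of_norm_le (hρm i j) (b := 1) fun g => norm_entry_le _ (hρu g) i j
  let V : Submodule ℂ (Fin e → ℂ) :=
    { carrier := {v | ∀ g, ρ g *ᵥ v = v}
      add_mem' := by
        intro a b ha hb g
        rw [Matrix.mulVec_add, ha g, hb g]
      zero_mem' := by intro g; rw [Matrix.mulVec_zero]
      smul_mem' := by
        intro c v hv g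
        rw [Matrix.mulVec_smul, hv g] }
  have hV : ∀ g, ∀ v ∈ V, ρ g *ᵥ v ∈ V := by
    intro g v hv
    have h1 : ρ g *ᵥ v = v := hv g
    rw [h1]; exact hv
  have hcol : (fun i => ∫ g, ρ g i j ∂μ) ∈ V := by
    intro h
    funext i
    simp only [Matrix.mulVec, dotProduct]
    have h1 : ∑ k, ρ h i k * ∫ g, ρ g k j ∂μ = ∫ g, (ρ (h * g)) i j ∂μ := by
      have h2 : ∀ g, (ρ (h * g)) i j = ∑ k, ρ h i k * ρ g k j := by
        intro g; rw [map_mul, Matrix.mul_apply]
      simp_rw [h2]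
      rw [integral_finsetSum _ fun k _ => (hi k j).const_mul _]
      refine Finset.sum_congr rfl fun k _ => ?_
      rw [integral_const_mul]
    rw [h1]
    exact integral_mul_left_eq_self (μ := μ) (fun g => ρ g i j) h
  rcases hρ.2 V hV with h | h
  · rw [h, Submodule.mem_bot] at hcol
    exact congrFun hcol i
  · exfalso
    obtain ⟨g, hg⟩ := hnt
    apply hg
    have h1 : ∀ v : Fin e → ℂ, ρ g *ᵥ v = v := by
      intro v
      have : v ∈ V := by rw [h]; trivial
      exact this g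
    have h2 : Matrix.toLin' (ρ g) = Matrix.toLin' 1 := by
      apply LinearMap.ext
      intro v
      rw [Matrix.toLin'_apply, Matrix.toLin'_apply, h1, Matrix.one_mulVec]
    exact Matrix.toLin'.injective h2

/-- The orthogonality relations hold for a family of non-trivial irreducible unitary
representations, no two of which are equivalent or conjugate. -/
theorem orth_of_irreps {Λ : Type} {d : Λ → ℕ} (ρ : (a : Λ) → G →* Matrix (Fin (d a)) (Fin (d a)) ℂ)
    (J : (a : Λ) → Option (Matrix (Fin (d a)) (Fin (d a)) ℂ))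
    (hm : ∀ a i j, Measurable fun g => ρ a g i j)
    (hu : ∀ a g, (ρ a g)ᴴ * ρ a g = 1) (hirr : ∀ a, Irred (ρ a))
    (hnt : ∀ a, ∃ g, ρ a g ≠ 1)
    (hne : ∀ a b, a ≠ b → ¬ Equivalent (ρ a) (ρ b) ∧ ¬ Equivalent (ρ a) (conjRep (ρ b)))
    (hJ0 : ∀ a, J a = none → ¬ Equivalent (ρ a) (conjRep (ρ a)))
    (hJ1 : ∀ a V, J a = some V → V * Vᴴ = 1 ∧ ∀ g, ρ a g * V = V * (ρ a g).map (starRingEnd ℂ)) :
    Orth μ d (fun a g => ρ a g) J := by
  have hcm : ∀ a i j, Measurable fun g => conjRep (ρ a) g i j := by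
    intro a i j
    exact Complex.continuous_conj.measurable.comp (hm a i j)
  have hcu : ∀ a g, (conjRep (ρ a) g)ᴴ * conjRep (ρ a) g = 1 := by
    intro a g
    have h1 : (conjRep (ρ a) g)ᴴ * conjRep (ρ a) g = ((ρ a g)ᴴ * ρ a g).map (starRingEnd ℂ) := by
      rw [conjRep_apply, Matrix.map_mul]
      congr 1
    rw [h1, hu]
    ext i j
    by_cases h : i = j
    · subst h; simp
    · simp [Matrix.one_apply_ne h]
  have hcc : ∀ a g i j, starRingEnd ℂ (conjRep (ρ a) g i j) = ρ a g i j := by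
    intro a g i j
    rw [conjRep_apply, Matrix.map_apply, Complex.conj_conj]
  refine ⟨fun a => (hirr a).1, hm, hu, fun a i j => orth_mean (hirr a) (hm a) (hu a) (hnt a) i j,
    fun a i j k l => orth_same (hirr a) (hm a) (hu a) i j k l, ?_, ?_, ?_, hJ1⟩
  · intro a b hab i j k l
    exact orth_zero (hirr a) (hirr b) (hm a) (hm b) (hu a) (hu b) (hne a b hab).1 i j k l
  · intro a b hab i j k l
    have h := orth_zero (μ := μ) (hirr a) (irred_conj (hirr b)) (hm a) (hcm b) (hu a) (hcu b)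
      (hne a b hab).2 i j k l
    simp_rw [hcc] at h
    exact h
  · intro a ha i j k l
    have h := orth_zero (μ := μ) (hirr a) (irred_conj (hirr a)) (hm a) (hcm a) (hu a) (hcu a)
      (hJ0 a ha) i j k l
    simp_rw [hcc] at h
    exact h

end average

end Pool.Agent.H92.MF
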