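import Mathlib
import Pool.Agent.H92.MF.Schur

/-!
The circle group and finite groups.
-/

open MeasureTheory ProbabilityTheory Matrix

namespace Pool.Agent.H92.MF

/-- the uniform distribution on `[0, 2π)` -/
noncomputable def angleLaw : Measure ℝ := ProbabilityTheory.cond volume (Set.Ico 0 (2 * Real.pi))

/-- The frequencies `1, …, L` of the circle group: `φ ↦ exp (i k φ)`, as `1` by `1` matrices;
`k : Fin L` stands for the frequency `k + 1`. -/
noncomputable def circleFreq (L : ℕ) (k : Fin L) (φ : ℝ) : Matrix (Fin 1) (Fin 1) ℂ :=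
  Matrix.of fun _ _ => Complex.exp ((((k : ℕ) + 1 : ℕ) : ℂ) * φ * Complex.I)

instance : IsProbabilityMeasure angleLaw := by
  apply cond_isProbabilityMeasure_of_finite
  · rw [Real.volume_Ico]
    simp [Real.pi_pos]
  · rw [Real.volume_Ico]
    exact ENNReal.ofReal_ne_top

theorem integral_angle (m : ℤ) (hm : m ≠ 0) :
    ∫ φ, Complex.exp ((m : ℂ) * φ * Complex.I) ∂angleLaw = 0 := by
  rw [angleLaw, ProbabilityTheory.cond, integral_smul_measure, integral_Ico_eq_integral_Ioc,
    ← intervalIntegral.integral_of_le (by positivity)]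
  have hc : (m : ℂ) * Complex.I ≠ 0 := by
    simp [hm, Complex.I_ne_zero]
  have h1 : ∀ φ : ℝ, Complex.exp ((m : ℂ) * φ * Complex.I) = Complex.exp (((m : ℂ) * Complex.I) * φ) := by
    intro φ; congr 1; ring
  simp_rw [h1]
  rw [integral_exp_mul_complex hc]
  have h2 : Complex.exp ((m : ℂ) * Complex.I * ((2 * Real.pi : ℝ) : ℂ)) = 1 := by
    have h3 : (m : ℂ) * Complex.I * ((2 * Real.pi : ℝ) : ℂ) = (m : ℂ) * (2 * Real.pi * Complex.I) := by
      push_cast; ring
    rw [h3]
    exact Complex.exp_int_mul_two_pi_mul_I m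
  rw [h2]
  simp

theorem orth_circle (L : ℕ) :
    Orth angleLaw (fun _ : Fin L => 1) (circleFreq L) (fun _ => none) := by
  have hconj : ∀ (k : ℕ) (φ : ℝ), starRingEnd ℂ (Complex.exp ((k : ℂ) * φ * Complex.I))
      = Complex.exp (-((k : ℂ) * φ * Complex.I)) := by
    intro k φ
    rw [← Complex.exp_conj]
    simp
  refine ⟨fun _ => one_pos, ?_, ?_, ?_, ?_, ?_, ?_, ?_, ?_⟩
  · intro a i j
    simp only [circleFreq, Matrix.of_apply]
    fun_prop
  · intro a x
    ext i j
    rw [Matrix.mul_apply, Subsingleton.elim i j, Matrix.one_apply_eq]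
    simp only [circleFreq, Matrix.conjTranspose_apply, Matrix.of_apply, Finset.univ_unique,
      Finset.sum_singleton]
    change starRingEnd ℂ (Complex.exp ((((a : ℕ) + 1 : ℕ) : ℂ) * x * Complex.I)) * _ = 1
    rw [hconj, ← Complex.exp_add]
    simp
  · intro a i j
    simp only [circleFreq, Matrix.of_apply]
    have := integral_angle (((a : ℕ) + 1 : ℕ) : ℤ) (by positivity)
    simpa using this
  · intro a i j k l
    rw [if_pos ⟨Subsingleton.elim _ _, Subsingleton.elim _ _⟩]
    simp only [circleFreq, Matrix.of_apply]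
    simp_rw [hconj, ← Complex.exp_add]
    simp
  · intro a b hab i j k l
    simp only [circleFreq, Matrix.of_apply]
    simp_rw [hconj, ← Complex.exp_add]
    have h1 : ((a : ℕ) : ℤ) - ((b : ℕ) : ℤ) ≠ 0 := by
      intro h
      apply hab
      apply Fin.ext
      omega
    have h2 := integral_angle _ h1
    rw [← h2]
    congr 1
    funext φ
    congr 1
    push_cast
    ring
  · intro a b hab i j k l
    simp only [circleFreq, Matrix.of_apply]
    simp_rw [← Complex.exp_add]
    have h1 : (((a : ℕ) + (b : ℕ) + 2 : ℕ) : ℤ) ≠ 0 := by positivity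
    have h2 := integral_angle _ h1
    rw [← h2]
    congr 1
    funext φ
    congr 1
    push_cast
    ring
  · intro a _ i j k l
    simp only [circleFreq, Matrix.of_apply]
    simp_rw [← Complex.exp_add]
    have h1 : (((a : ℕ) + (a : ℕ) + 2 : ℕ) : ℤ) ≠ 0 := by positivity
    have h2 := integral_angle _ h1
    rw [← h2]
    congr 1
    funext φ
    congr 1
    push_cast
    ring
  · intro a V h
    exact absurd h (by simp)

instance uniform_left {G : Type} [Group G] [Fintype G] [MeasurableSpace G]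
    [DiscreteMeasurableSpace G] : (uniformOn (Set.univ : Set G)).IsMulLeftInvariant := by
  constructor
  intro g
  ext s hs
  rw [Measure.map_apply (measurable_of_finite _) hs]
  rw [uniformOn_univ, uniformOn_univ]
  congr 1
  have h1 : (fun x => g * x) ⁻¹' s = (fun x => g⁻¹ * x) '' s := by
    ext x
    simp only [Set.mem_preimage, Set.mem_image]
    constructor
    · intro h
      exact ⟨g * x, h, by simp⟩
    · rintro ⟨y, hy, rfl⟩
      simpa using hy
  rw [h1, Measure.count_apply (MeasurableSet.of_discrete), Measure.count_apply hs]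
  rw [Set.InjOn.encard_image]
  intro x _ y _ h
  simpa using h

/-- The general theorem for a group with an invariant probability measure. -/
theorem group_case (Λ : Type) [Fintype Λ] (d : Λ → ℕ) (lam : ℝ) (h0 : 0 ≤ lam) (h1 : lam < 1) :
      ∃ δ C : ℝ, 0 < δ ∧ 0 ≤ C ∧
        ∀ (G : Type) [Group G] [MeasurableSpace G] [MeasurableMul G] (μ : Measure G)
          [IsProbabilityMeasure μ] [μ.IsMulLeftInvariant]
          (ρ : (a : Λ) → G →* Matrix (Fin (d a)) (Fin (d a)) ℂ)
          (J : (a : Λ) → Option (Matrix (Fin (d a)) (Fin (d a)) ℂ)),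
          (∀ a i j, Measurable fun g => ρ a g i j) →
          (∀ a g, (ρ a g)ᴴ * ρ a g = 1) → (∀ a, Irred (ρ a)) → (∀ a, ∃ g, ρ a g ≠ 1) →
          (∀ a b, a ≠ b → ¬ Equivalent (ρ a) (ρ b) ∧ ¬ Equivalent (ρ a) (conjRep (ρ b))) →
          (∀ a, J a = none → ¬ Equivalent (ρ a) (conjRep (ρ a))) →
          (∀ a V, J a = some V →
            V * Vᴴ = 1 ∧ ∀ g, ρ a g * V = V * (ρ a g).map (starRingEnd ℂ)) →
          ∀ n D : ℕ, 1 ≤ n → (D : ℝ) ≤ δ * n →
            ∀ f : MvPolynomial (Idx n d) ℝ, f.totalDegree ≤ D →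
              (plantedE μ (fun a g => ρ a g) J lam f - nullE J f) ^ 2 ≤ C * nullVar J f := by
  obtain ⟨δ, hδ, C, hC, H⟩ := linear_degree Λ d lam h0 h1
  refine ⟨δ, C, hδ, hC, ?_⟩
  intro G _ _ _ μ _ _ ρ J hm hu hirr hnt hne hJ0 hJ1 n D hn hD f hf
  exact H G μ (fun a g => ρ a g) J
    (orth_of_irreps ρ J hm hu hirr hnt hne hJ0 hJ1) n D hn hD f hf

/-- The model over a finite group with uniformly distributed signal. -/
theorem finite_case (Λ : Type) [Fintype Λ] (d : Λ → ℕ) (lam : ℝ) (h0 : 0 ≤ lam) (h1 : lam < 1) :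
      ∃ δ C : ℝ, 0 < δ ∧ 0 ≤ C ∧
        ∀ (G : Type) [Group G] [Fintype G] [MeasurableSpace G] [DiscreteMeasurableSpace G]
          (ρ : (a : Λ) → G →* Matrix (Fin (d a)) (Fin (d a)) ℂ)
          (J : (a : Λ) → Option (Matrix (Fin (d a)) (Fin (d a)) ℂ)),
          (∀ a g, (ρ a g)ᴴ * ρ a g = 1) → (∀ a, Irred (ρ a)) → (∀ a, ∃ g, ρ a g ≠ 1) →
          (∀ a b, a ≠ b → ¬ Equivalent (ρ a) (ρ b) ∧ ¬ Equivalent (ρ a) (conjRep (ρ b))) →
          (∀ a, J a = none → ¬ Equivalent (ρ a) (conjRep (ρ a))) →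
          (∀ a V, J a = some V →
            V * Vᴴ = 1 ∧ ∀ g, ρ a g * V = V * (ρ a g).map (starRingEnd ℂ)) →
          ∀ n D : ℕ, 1 ≤ n → (D : ℝ) ≤ δ * n →
            ∀ f : MvPolynomial (Idx n d) ℝ, f.totalDegree ≤ D →
              (plantedE (uniformOn (Set.univ : Set G)) (fun a g => ρ a g) J lam f - nullE J f) ^ 2
                ≤ C * nullVar J f := by
  obtain ⟨δ, C, hδ, hC, H⟩ := group_case Λ d lam h0 h1
  refine ⟨δ, C, hδ, hC, ?_⟩
  intro G _ _ _ _ ρ J hu hirr hnt hne hJ0 hJ1 n D hn hD f hf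
  exact H G (uniformOn Set.univ) ρ J (fun a i j => measurable_of_finite _) hu hirr hnt hne hJ0 hJ1
    n D hn hD f hf

/-- The model over the circle group with frequencies `1, …, L` and uniformly distributed angles. -/
theorem circle_case (L : ℕ) (lam : ℝ) (h0 : 0 ≤ lam) (h1 : lam < 1) :
      ∃ δ C : ℝ, 0 < δ ∧ 0 ≤ C ∧ ∀ n D : ℕ, 1 ≤ n → (D : ℝ) ≤ δ * n →
        ∀ f : MvPolynomial (Idx n (fun _ : Fin L => 1)) ℝ, f.totalDegree ≤ D →
          (plantedE angleLaw (circleFreq L) (fun _ => none) lam f - nullE (fun _ => none) f) ^ 2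
            ≤ C * nullVar (fun _ => none) f := by
  obtain ⟨δ, hδ, C, hC, H⟩ := linear_degree (Fin L) (fun _ => 1) lam h0 h1
  exact ⟨δ, C, hδ, hC, fun n D hn hD f hf => H ℝ angleLaw (circleFreq L) (fun _ => none)
    (orth_circle L) n D hn hD f hf⟩

end Pool.Agent.H92.MF
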